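import Pool.Agent.D0H84.BS.Desc

/-!
# Project BSM, module PICA: descent of invertible ideals along `A → B = A ⊗ Frac R`, when the primes of the
Dedekind domain `R` stay prime in `A` or become trivial (after `Pool.Agent.D0H84.BS.Desc`, helper84)
-/

set_option autoImplicit false
set_option linter.all false

open scoped nonZeroDivisors

namespace Pool.Agent.D0H76.BS.PC

open Pool.Agent.D0H84.BS (class_repr inv_ideal exists_div)

section desc

variable {R A : Type} [CommRing R] [IsDedekindDomain R] [CommRing A] [IsDomain A] [Algebra R A]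

/-- the extension of an ideal -/
abbrev ee (A : Type) [CommRing A] [Algebra R A] (P : Ideal R) : Ideal A := P.map (algebraMap R A)

/-- the primes stay prime or become trivial -/
def HP (R A : Type) [CommRing R] [CommRing A] [Algebra R A] : Prop :=
  ∀ P : Ideal R, P.IsPrime → P ≠ ⊥ → (P.map (algebraMap R A)).IsPrime ∨ P.map (algebraMap R A) = ⊤

theorem exists_compl {P : Ideal R} (hP : P ≠ ⊥) :
    ∃ (P' : Ideal R) (a : R), a ≠ 0 ∧ P * P' = Ideal.span {a} := by
  obtain ⟨a, ha, ha0⟩ := Submodule.exists_mem_ne_zero_of_ne_bot hP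
  have h1 : P ∣ Ideal.span {a} := by
    rw [Ideal.dvd_iff_le, Ideal.span_singleton_le_iff_mem]
    exact ha
  obtain ⟨P', hP'⟩ := h1
  exact ⟨P', a, ha0, hP'.symm⟩

theorem dvd_of_not_le (hR : Function.Injective (algebraMap R A)) (hp : HP R A) {I : Ideal A} {c : A}
    (hc : c ≠ 0) (d : Ideal R) : d ≠ 0 →
    (∀ P : Ideal R, P.IsPrime → P ≠ ⊥ → d ≤ P → ee A P ≠ ⊤ → ¬ I ≤ ee A P) →
    ∀ j : A, (∀ i ∈ I, c ∣ j * i) → (∀ x ∈ d, c ∣ algebraMap R A x * j) → c ∣ j := by
  induction d using UniqueFactorizationMonoid.induction_on_prime with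
  | h₁ => intro h; exact absurd rfl h
  | h₂ x hx =>
    intro _ _ j _ h
    have hx1 : x = ⊤ := by
      rw [← Ideal.one_eq_top]
      exact isUnit_iff_eq_one.1 hx
    have h1 := h 1 (by rw [hx1]; exact Submodule.mem_top)
    rwa [map_one, one_mul] at h1
  | h₃ a P ha hPr ih =>
    intro _ hI j hj h
    have hP0 : P ≠ ⊥ := hPr.ne_zero
    have hPp : P.IsPrime := Ideal.isPrime_of_prime hPr
    refine ih ha (fun Q h1 h2 h3 h4 => hI Q h1 h2 (le_trans Ideal.mul_le_right h3) h4) j hj ?_
    intro y hy
    set t := algebraMap R A y * j with ht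
    have htI : ∀ i ∈ I, c ∣ t * i := by
      intro i hi
      rw [ht, mul_assoc]
      exact (hj i hi).mul_left _
    have htP : ∀ z ∈ P, c ∣ algebraMap R A z * t := by
      intro z hz
      rw [ht, ← mul_assoc, ← map_mul]
      exact h _ (Ideal.mul_mem_mul hz hy)
    by_cases htop : ee A P = ⊤
    · have h1 : ee A P ≤ Submodule.comap (LinearMap.mulRight A t) (Ideal.span {c}) := by
        refine Ideal.map_le_iff_le_comap.2 fun z hz => ?_
        show algebraMap R A z * t ∈ Ideal.span {c}
        exact Ideal.mem_span_singleton.2 (htP z hz)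
      have h2 : (1 : A) ∈ Submodule.comap (LinearMap.mulRight A t) (Ideal.span {c}) := by
        apply h1
        rw [htop]
        exact Submodule.mem_top
      have h3 : 1 * t ∈ Ideal.span {c} := h2
      rw [one_mul] at h3
      exact Ideal.mem_span_singleton.1 h3
    · have hep : (ee A P).IsPrime := (hp P hPp hP0).resolve_right htop
      obtain ⟨i, hi, hiP⟩ := Set.not_subset.1 (hI P hPp hP0 Ideal.mul_le_left htop)
      obtain ⟨P', a0, ha0, hPP⟩ := exists_compl hP0
      have ha0' : algebraMap R A a0 ≠ 0 := fun h0 => ha0 (hR (by rw [h0, map_zero]))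
      have h1 : P * P' ≤ Ideal.comap (algebraMap R A)
          (Submodule.comap (LinearMap.mulRight A t) (Ideal.span {c * algebraMap R A a0})) := by
        rw [Ideal.mul_le]
        intro z hz q hq
        show algebraMap R A (z * q) * t ∈ Ideal.span {c * algebraMap R A a0}
        obtain ⟨u, hu⟩ := htP z hz
        obtain ⟨w, hw⟩ := htI i hi
        have h2 : u * i = algebraMap R A z * w := by
          apply mul_left_cancel₀ hc
          calc c * (u * i) = (c * u) * i := by ring
            _ = algebraMap R A z * (t * i) := by rw [← hu]; ring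
            _ = _ := by rw [hw]; ring
        have h3 : u ∈ ee A P := by
          have h4 : u * i ∈ ee A P := by
            rw [h2]
            exact Ideal.mul_mem_right _ _ (Ideal.mem_map_of_mem _ hz)
          exact (hep.mem_or_mem h4).resolve_right hiP
        have h5 : algebraMap R A q * u ∈ Ideal.span {algebraMap R A a0} := by
          have h6 : u * algebraMap R A q ∈ ee A P * ee A P' :=
            Ideal.mul_mem_mul h3 (Ideal.mem_map_of_mem _ hq)
          rw [← Ideal.map_mul, hPP, Ideal.map_span, Set.image_singleton, mul_comm] at h6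
          exact h6
        obtain ⟨x, hx⟩ := Ideal.mem_span_singleton.1 h5
        refine Ideal.mem_span_singleton.2 ⟨x, ?_⟩
        rw [map_mul]
        linear_combination (algebraMap R A q) * hu + c * hx
      have h2 : a0 ∈ P * P' := by
        rw [hPP]
        exact Ideal.mem_span_singleton_self a0
      have h3 : algebraMap R A a0 * t ∈ Ideal.span {c * algebraMap R A a0} := h1 h2
      obtain ⟨x, hx⟩ := Ideal.mem_span_singleton.1 h3
      refine ⟨x, ?_⟩
      apply mul_left_cancel₀ ha0'
      linear_combination hx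

theorem princ (hR : Function.Injective (algebraMap R A)) (hp : HP R A) (d : Ideal R) : d ≠ 0 →
    ∀ (I J : Ideal A) (c : A), c ≠ 0 → I * J = Ideal.span {c} → ee A d ≤ I →
      ∃ C : Ideal R, C ≠ ⊥ ∧ I = ee A C := by
  induction d using (wellFounded_dvdNotUnit (α := Ideal R)).induction with
  | _ d ih =>
  intro hd I J c hc hIJ hdI
  by_cases hex : ∃ P : Ideal R, P.IsPrime ∧ P ≠ ⊥ ∧ d ≤ P ∧ ee A P ≠ ⊤ ∧ I ≤ ee A P
  · obtain ⟨P, hP, hP0, hdP, htop, hle⟩ := hex
    obtain ⟨d1, rfl⟩ := Ideal.dvd_iff_le.2 hdP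
    obtain ⟨P', a0, ha0, hPP⟩ := exists_compl hP0
    have ha0' : algebraMap R A a0 ≠ 0 := fun h0 => ha0 (hR (by rw [h0, map_zero]))
    have hePP : ee A P * ee A P' = Ideal.span {algebraMap R A a0} := by
      rw [← Ideal.map_mul, hPP, Ideal.map_span, Set.image_singleton]
    have h1 : ee A P' * I ≤ Ideal.span {algebraMap R A a0} := by
      rw [← hePP, mul_comm (ee A P)]
      exact Ideal.mul_mono_right hle
    obtain ⟨I1, hI1, hI2⟩ := exists_div h1
    have h2 : ee A P * I1 = I := by
      apply (Ideal.span_singleton_mul_right_inj ha0').1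
      calc Ideal.span {algebraMap R A a0} * (ee A P * I1) =
          ee A P * (Ideal.span {algebraMap R A a0} * I1) := by ring
        _ = (ee A P * ee A P') * I := by rw [hI1]; ring
        _ = _ := by rw [hePP]
    have hd1 : d1 ≠ 0 := right_ne_zero_of_mul hd
    have h3 : ee A d1 ≤ I1 := by
      refine Ideal.map_le_iff_le_comap.2 fun x hx => ?_
      refine hI2 _ ?_
      have h4 : a0 * x ∈ P' * (P * d1) := by
        have h5 : a0 ∈ P * P' := by
          rw [hPP]
          exact Ideal.mem_span_singleton_self a0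
        have h6 := Ideal.mul_mem_mul h5 hx
        have e : P * P' * d1 = P' * (P * d1) := by ring
        rwa [e] at h6
      have h7 := Ideal.mem_map_of_mem (algebraMap R A) h4
      rw [Ideal.map_mul, map_mul] at h7
      exact Ideal.mul_mono_right hdI h7
    have hPu : ¬ IsUnit P := fun hu => hP.ne_top (by
      rw [← Ideal.one_eq_top]
      exact isUnit_iff_eq_one.1 hu)
    obtain ⟨C, hC0, hC⟩ := ih d1 ⟨hd1, P, hPu, mul_comm _ _⟩ hd1 I1 (ee A P * J) c hc (by
      rw [← hIJ, ← h2]
      ring) h3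
    refine ⟨P * C, ?_, ?_⟩
    · rw [Ne, Ideal.mul_eq_bot]
      tauto
    · rw [← h2, hC]
      exact (Ideal.map_mul _ _ _).symm
  · push Not at hex
    have hJ : J ≤ Ideal.span {c} := by
      intro j hj
      refine Ideal.mem_span_singleton.2 (dvd_of_not_le hR hp hc (I := I) d hd
        (fun P h1 h2 h3 h4 => hex P h1 h2 h3 h4) j ?_ ?_)
      · intro i hi
        rw [← Ideal.mem_span_singleton, ← hIJ, mul_comm j i]
        exact Ideal.mul_mem_mul hi hj
      · intro x hx
        rw [← Ideal.mem_span_singleton, ← hIJ]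
        exact Ideal.mul_mem_mul (hdI (Ideal.mem_map_of_mem _ hx)) hj
    refine ⟨⊤, top_ne_bot, ?_⟩
    show I = Ideal.map (algebraMap R A) ⊤
    rw [Ideal.map_top, Ideal.eq_top_iff_one]
    have h1 : c ∈ Ideal.span {c} * I := by
      have h2 : c ∈ I * J := by rw [hIJ]; exact Ideal.mem_span_singleton_self c
      rw [mul_comm]
      exact Ideal.mul_mono_right hJ h2
    obtain ⟨z, hz, hz2⟩ := Ideal.mem_span_singleton_mul.1 h1
    have h3 : z = 1 := mul_left_cancel₀ hc (by rw [hz2, mul_one])
    rwa [h3] at hz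

end desc

section inj

variable (R A B : Type) [CommRing R] [IsDedekindDomain R] [CommRing A] [IsDomain A]
  [IsNoetherianRing A] [CommRing B] [IsDomain B] [Algebra R A] [Algebra A B]

/-- the primes of `R` stay prime in `A` or become trivial, and `B` is the localization of `A` at the
nonzero elements of `R` -/
structure Setup : Prop where
  hp : HP R A
  hR : Function.Injective (algebraMap R A)
  hA : Function.Injective (algebraMap A B)
  loc : ∀ b : B, ∃ r : R, r ≠ 0 ∧ ∃ a : A, algebraMap A B (algebraMap R A r) * b = algebraMap A B a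
  unit : ∀ r : R, r ≠ 0 → IsUnit (algebraMap A B (algebraMap R A r))

variable {R A B}

theorem map_mem (hS : Setup R A B) {I : Ideal A} {y : B} (hy : y ∈ I.map (algebraMap A B)) :
    ∃ r : R, r ≠ 0 ∧ ∃ i ∈ I, algebraMap A B (algebraMap R A r) * y = algebraMap A B i := by
  refine Submodule.span_induction (p := fun y _ => ∃ r : R, r ≠ 0 ∧ ∃ i ∈ I,
    algebraMap A B (algebraMap R A r) * y = algebraMap A B i) ?_ ?_ ?_ ?_ hy
  · rintro _ ⟨i, hi, rfl⟩
    exact ⟨1, one_ne_zero, i, hi, by rw [map_one, map_one, one_mul]⟩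
  · exact ⟨1, one_ne_zero, 0, I.zero_mem, by rw [map_zero, mul_zero]⟩
  · rintro x y _ _ ⟨r, hr, i, hi, h1⟩ ⟨s, hs, j, hj, h2⟩
    refine ⟨r * s, mul_ne_zero hr hs, algebraMap R A s * i + algebraMap R A r * j,
      I.add_mem (I.mul_mem_left _ hi) (I.mul_mem_left _ hj), ?_⟩
    simp only [map_mul, map_add]
    rw [← h1, ← h2]
    ring
  · rintro b x _ ⟨r, hr, i, hi, h1⟩
    obtain ⟨s, hs, a, ha⟩ := hS.loc b
    refine ⟨s * r, mul_ne_zero hs hr, a * i, I.mul_mem_left _ hi, ?_⟩
    simp only [map_mul, smul_eq_mul]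
    rw [← h1, ← ha]
    ring

theorem ideal_of_map (hS : Setup R A B) {I J : Ideal A} {c d : A} (hc : c ≠ 0)
    (hIJ : I * J = Ideal.span {c}) (hd : d ≠ 0)
    (h : I.map (algebraMap A B) = Ideal.span {algebraMap A B d}) :
    ∃ (C : Ideal R) (x y : A), C ≠ ⊥ ∧ x ≠ 0 ∧ y ≠ 0 ∧
      Ideal.span {x} * I = Ideal.span {y} * ee A C := by
  -- a uniform denominator
  have h1 : ∀ x ∈ I, ∃ r : R, r ≠ 0 ∧ d ∣ algebraMap R A r * x := by
    intro x hx
    have h2 : algebraMap A B x ∈ Ideal.span {algebraMap A B d} := h ▸ Ideal.mem_map_of_mem _ hx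
    obtain ⟨b, hb⟩ := Ideal.mem_span_singleton.1 h2
    obtain ⟨r, hr, a, ha⟩ := hS.loc b
    refine ⟨r, hr, a, hS.hA ?_⟩
    rw [map_mul, map_mul, hb, ← ha]
    ring
  have h2 : ∀ s : Finset A, (∀ x ∈ s, x ∈ I) → ∃ r : R, r ≠ 0 ∧ ∀ x ∈ s, d ∣ algebraMap R A r * x := by
    classical
    intro s
    induction s using Finset.induction_on with
    | empty => intro _; exact ⟨1, one_ne_zero, fun x hx => absurd hx (Finset.notMem_empty x)⟩
    | insert a s has ih =>
      intro hs
      obtain ⟨r, hr, h3⟩ := ih fun x hx => hs x (Finset.mem_insert_of_mem hx)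
      obtain ⟨t, ht, h4⟩ := h1 a (hs a (Finset.mem_insert_self a s))
      refine ⟨r * t, mul_ne_zero hr ht, fun x hx => ?_⟩
      rcases Finset.mem_insert.1 hx with rfl | hx
      · rw [map_mul, mul_assoc]
        exact h4.mul_left _
      · rw [map_mul, mul_right_comm]
        exact (h3 x hx).mul_right _
  obtain ⟨s, hs⟩ := (isNoetherianRing_iff_ideal_fg A).1 inferInstance I
  obtain ⟨r, hr, h3⟩ := h2 s fun x hx => by rw [← hs]; exact Submodule.subset_span hx
  have hr' : algebraMap R A r ≠ 0 := fun h0 => hr (hS.hR (by rw [h0, map_zero]))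
  have h4 : Ideal.span {algebraMap R A r} * I ≤ Ideal.span {d} := by
    intro y hy
    obtain ⟨x, hx, rfl⟩ := Ideal.mem_span_singleton_mul.1 hy
    have h5 : I ≤ Submodule.comap (LinearMap.mulLeft A (algebraMap R A r)) (Ideal.span {d}) := by
      rw [← hs]
      refine Submodule.span_le.2 fun x hx => ?_
      exact Ideal.mem_span_singleton.2 (h3 x hx)
    exact h5 hx
  obtain ⟨K, hK, hK2⟩ := exists_div h4
  obtain ⟨r2, hr2, i, hi, h5⟩ := map_mem hS (I := I) (y := algebraMap A B d)
    (by rw [h]; exact Ideal.mem_span_singleton_self _)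
  have h6 : algebraMap R A r2 * d = i := hS.hA (by rw [map_mul, h5])
  have h7 : algebraMap R A (r * r2) ∈ K := by
    refine hK2 _ (Ideal.mem_span_singleton_mul.2 ⟨i, hi, ?_⟩)
    rw [← h6, map_mul]
    ring
  obtain ⟨C, hC0, hC⟩ := princ hS.hR hS.hp (Ideal.span {r * r2}) (by
      rw [Ne, Ideal.zero_eq_bot, Ideal.span_singleton_eq_bot]
      exact mul_ne_zero hr hr2) K (Ideal.span {d} * J)
    (algebraMap R A r * c) (mul_ne_zero hr' hc) (by
      rw [← Ideal.span_singleton_mul_span_singleton, ← hIJ, ← mul_assoc, ← mul_assoc, ← hK]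
      ring) (by
      show Ideal.map (algebraMap R A) (Ideal.span {r * r2}) ≤ K
      rw [Ideal.map_span, Set.image_singleton, Ideal.span_singleton_le_iff_mem]
      exact h7)
  exact ⟨C, algebraMap R A r, d, hC0, hr', hd, by rw [← hK, hC]⟩

/-- proportional ideals have the same class -/
theorem mk_eq {u u' : (FractionalIdeal A⁰ (FractionRing A))ˣ} {I I' : Ideal A} {x y : A}
    (hu : (u : FractionalIdeal A⁰ (FractionRing A)) = I)
    (hu' : (u' : FractionalIdeal A⁰ (FractionRing A)) = I') (hx : x ≠ 0) (hy : y ≠ 0)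
    (h : Ideal.span {x} * I = Ideal.span {y} * I') :
    ClassGroup.mk (FractionRing A) u = ClassGroup.mk (FractionRing A) u' := by
  have hx' : algebraMap A (FractionRing A) x ≠ 0 := by
    rwa [Ne, IsFractionRing.to_map_eq_zero_iff]
  have hy' : algebraMap A (FractionRing A) y ≠ 0 := by
    rwa [Ne, IsFractionRing.to_map_eq_zero_iff]
  have h1 : toPrincipalIdeal A (FractionRing A) (Units.mk0 _ hx') * u =
      toPrincipalIdeal A (FractionRing A) (Units.mk0 _ hy') * u' := by
    apply Units.ext
    rw [Units.val_mul, Units.val_mul, coe_toPrincipalIdeal, coe_toPrincipalIdeal, Units.val_mk0,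
      Units.val_mk0, hu, hu', ← FractionalIdeal.coeIdeal_span_singleton,
      ← FractionalIdeal.coeIdeal_span_singleton, ← FractionalIdeal.coeIdeal_mul,
      ← FractionalIdeal.coeIdeal_mul, h]
  have h2 : ∀ (z : (FractionRing A)ˣ) (w : (FractionalIdeal A⁰ (FractionRing A))ˣ),
      ClassGroup.mk (FractionRing A) (toPrincipalIdeal A (FractionRing A) z * w) =
        ClassGroup.mk (FractionRing A) w := by
    intro z w
    rw [mul_comm]
    exact ((ClassGroup.mk_eq_mk).2 ⟨_, rfl⟩).symm
  rw [← h2 (Units.mk0 _ hx') u, h1, h2]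

theorem finite_class [Finite (ClassGroup R)] (hS : Setup R A B) (hfin : Finite (ClassGroup B)) :
    Finite (ClassGroup A) := by
  classical
  haveI : FaithfulSMul A B := (faithfulSMul_iff_algebraMap_injective A B).2 hS.hA
  haveI : Module.IsTorsionFree A B := inferInstance
  let E : FractionalIdeal A⁰ (FractionRing A) →+* FractionalIdeal B⁰ (FractionRing B) :=
    FractionalIdeal.extendedHom (FractionRing B) B
  let ψ : (FractionalIdeal A⁰ (FractionRing A))ˣ →* ClassGroup B :=
    (ClassGroup.mk (FractionRing B)).comp (Units.map E.toMonoidHom)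
  have hker : ∀ u, ψ u = 1 → ∃ (u₀ : (FractionalIdeal A⁰ (FractionRing A))ˣ) (I : Ideal A)
      (C : Ideal R) (x y : A), ClassGroup.mk (FractionRing A) u₀ = ClassGroup.mk (FractionRing A) u ∧
      (u₀ : FractionalIdeal A⁰ (FractionRing A)) = I ∧ C ≠ ⊥ ∧ x ≠ 0 ∧ y ≠ 0 ∧
      Ideal.span {x} * I = Ideal.span {y} * ee A C := by
    intro u hu
    obtain ⟨a, I, ha, h⟩ :=
      FractionalIdeal.exists_eq_spanSingleton_mul (u : FractionalIdeal A⁰ (FractionRing A))
    have ha' : algebraMap A (FractionRing A) a ≠ 0 := by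
      rwa [Ne, IsFractionRing.to_map_eq_zero_iff]
    have hb : algebraMap A B a ≠ 0 := fun h0 => ha (hS.hA (by rw [h0, map_zero]))
    have hb' : algebraMap B (FractionRing B) (algebraMap A B a) ≠ 0 := by
      rwa [Ne, IsFractionRing.to_map_eq_zero_iff]
    set u₀ := u * toPrincipalIdeal A (FractionRing A) (Units.mk0 _ ha') with hu₀
    have hu1 : (u₀ : FractionalIdeal A⁰ (FractionRing A)) = I := by
      rw [hu₀, Units.val_mul, coe_toPrincipalIdeal, h, Units.val_mk0, mul_right_comm,
        FractionalIdeal.spanSingleton_mul_spanSingleton, inv_mul_cancel₀ ha',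
        FractionalIdeal.spanSingleton_one, one_mul]
    have hu2 : ClassGroup.mk (FractionRing A) u₀ = ClassGroup.mk (FractionRing A) u :=
      ((ClassGroup.mk_eq_mk).2 ⟨_, rfl⟩).symm
    obtain ⟨J, c, hc, hIJ⟩ := inv_ideal hu1
    -- the extension
    have hv1 : ((Units.map E.toMonoidHom u₀ : (FractionalIdeal B⁰ (FractionRing B))ˣ) :
        FractionalIdeal B⁰ (FractionRing B)) = (I.map (algebraMap A B) : Ideal B) := by
      show E (u₀ : FractionalIdeal A⁰ (FractionRing A)) = _
      rw [hu1]
      exact FractionalIdeal.extendedHom_coeIdeal_eq_map (FractionRing B) B I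
    have hv2 : ClassGroup.mk (FractionRing B) (Units.map E.toMonoidHom u₀) = 1 := by
      have e1 : Units.map E.toMonoidHom u₀ = Units.map E.toMonoidHom u *
          toPrincipalIdeal B (FractionRing B) (Units.mk0 _ hb') := by
        rw [hu₀, map_mul]
        congr 1
        apply Units.ext
        rw [coe_toPrincipalIdeal, Units.val_mk0]
        show E ((toPrincipalIdeal A (FractionRing A)) (Units.mk0 _ ha') :
          FractionalIdeal A⁰ (FractionRing A)) = _
        rw [coe_toPrincipalIdeal, Units.val_mk0]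
        refine (FractionalIdeal.extendedHom_spanSingleton (FractionRing B) B _).trans ?_
        congr 1
        exact IsLocalization.map_eq _ _
      rw [e1, ← (ClassGroup.mk_eq_mk).2 ⟨_, rfl⟩]
      exact hu
    obtain ⟨x, hx, hx2⟩ := (ClassGroup.mk_eq_one_of_coe_ideal hv1).1 hv2
    obtain ⟨r, hr, d, hd⟩ := hS.loc x
    have hru := hS.unit r hr
    have h3 : I.map (algebraMap A B) = Ideal.span {algebraMap A B d} := by
      rw [hx2, ← hd]
      exact (Ideal.span_singleton_mul_left_unit hru x).symm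
    have hd0 : d ≠ 0 := by
      rintro rfl
      rw [map_zero] at hd
      exact mul_ne_zero hru.ne_zero hx hd
    obtain ⟨C, x', y', hC, hx', hy', hxy⟩ := ideal_of_map hS hc hIJ hd0 h3
    exact ⟨u₀, I, C, x', y', hu2, hu1, hC, hx', hy', hxy⟩
  -- the kernel
  let H : Set (ClassGroup A) := {c | ∃ u, ψ u = 1 ∧ ClassGroup.mk (FractionRing A) u = c}
  have hHfin : Finite H := by
    have hch : ∀ c : H, ∃ (u₀ : (FractionalIdeal A⁰ (FractionRing A))ˣ) (I : Ideal A)
      (C : Ideal R) (x y : A), ClassGroup.mk (FractionRing A) u₀ = c.1 ∧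
      (u₀ : FractionalIdeal A⁰ (FractionRing A)) = I ∧ C ≠ ⊥ ∧ x ≠ 0 ∧ y ≠ 0 ∧
      Ideal.span {x} * I = Ideal.span {y} * ee A C := by
      rintro ⟨c, u, hu, rfl⟩
      exact hker u hu
    choose u₀ I C x y h1 h2 h3 h4 h5 h6 using hch
    refine Finite.of_injective (fun c : H => ClassGroup.mk0 (⟨C c,
      mem_nonZeroDivisors_of_ne_zero (h3 c)⟩ : nonZeroDivisors (Ideal R))) ?_
    intro c c' hcc
    obtain ⟨a, b, ha, hb, hab⟩ := ClassGroup.mk0_eq_mk0_iff.1 hcc
    have hab' : Ideal.span {a} * C c = Ideal.span {b} * C c' := hab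
    have ha' : algebraMap R A a ≠ 0 := fun h0 => ha (hS.hR (by rw [h0, map_zero]))
    have hb' : algebraMap R A b ≠ 0 := fun h0 => hb (hS.hR (by rw [h0, map_zero]))
    have he : Ideal.span {algebraMap R A a} * ee A (C c) = Ideal.span {algebraMap R A b} * ee A (C c') := by
      have h7 := congrArg (Ideal.map (algebraMap R A)) hab'
      rw [Ideal.map_mul, Ideal.map_mul, Ideal.map_span, Ideal.map_span, Set.image_singleton,
        Set.image_singleton] at h7
      exact h7
    apply Subtype.ext
    rw [← h1 c, ← h1 c']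
    refine mk_eq (x := algebraMap R A a * y c' * x c) (y := algebraMap R A b * y c * x c')
      (h2 c) (h2 c') (mul_ne_zero (mul_ne_zero ha' (h5 c')) (h4 c))
      (mul_ne_zero (mul_ne_zero hb' (h5 c)) (h4 c')) ?_
    simp only [← Ideal.span_singleton_mul_span_singleton]
    calc Ideal.span {algebraMap R A a} * Ideal.span {y c'} * Ideal.span {x c} * I c =
        Ideal.span {algebraMap R A a} * Ideal.span {y c'} * (Ideal.span {x c} * I c) := by ring
      _ = Ideal.span {y c} * Ideal.span {y c'} * (Ideal.span {algebraMap R A a} * ee A (C c)) := by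
        rw [h6 c]
        ring
      _ = Ideal.span {algebraMap R A b} * Ideal.span {y c} * (Ideal.span {y c'} * ee A (C c')) := by
        rw [he]
        ring
      _ = _ := by
        rw [← h6 c']
        ring
  let f : ψ.range × H → ClassGroup A := fun b =>
    ClassGroup.mk (FractionRing A) (Classical.choose b.1.2) * b.2.1
  refine Finite.of_surjective f fun c => ?_
  refine ClassGroup.induction (FractionRing A) (P := fun c => ∃ a, f a = c) ?_ c
  intro u
  have h1 : ψ (Classical.choose (⟨ψ u, u, rfl⟩ : ψ.range).2) = ψ u :=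
    Classical.choose_spec (⟨ψ u, u, rfl⟩ : ψ.range).2
  have h2 : ψ ((Classical.choose (⟨ψ u, u, rfl⟩ : ψ.range).2)⁻¹ * u) = 1 := by
    rw [map_mul, map_inv, h1, inv_mul_cancel]
  refine ⟨⟨⟨ψ u, u, rfl⟩, ⟨_, _, h2, rfl⟩⟩, ?_⟩
  show ClassGroup.mk (FractionRing A) (Classical.choose (⟨ψ u, u, rfl⟩ : ψ.range).2) *
    ClassGroup.mk (FractionRing A) ((Classical.choose (⟨ψ u, u, rfl⟩ : ψ.range).2)⁻¹ * u) = _
  rw [← map_mul, mul_inv_cancel_left]

end inj

end Pool.Agent.D0H76.BS.PC
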