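import Pool.Agent.D0H76.BS.Stm
import Pool.Agent.D0H76.BS.Dsd
import Pool.Agent.D0H84.BS.Pic

/-!
# Project BSM, module PICA: the Picard group of the arithmetic surface over `𝓞 K [1 / N]`, all class numbers
-/

set_option autoImplicit false
set_option linter.all false

open Polynomial NumberField
open scoped nonZeroDivisors Classical

namespace Pool.Agent.D0H76.BS.PC

open WeierstrassCurve.Affine WeierstrassCurve.Affine.CoordinateRing
open Pool.Agent.D0H84.BS (map_alg map_pq exists_den finite_of_points)
open Pool.Agent.D0H69.BS (CRN)

section crd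

variable {S : Type} [CommRing S] (W : WeierstrassCurve.Affine S)

/-- a prime ideal of the base generates a prime ideal of the coordinate ring -/
theorem prime_map {P : Ideal S} (hP : P.IsPrime) :
    (P.map (algebraMap S W.CoordinateRing)).IsPrime := by
  set f : S →+* S ⧸ P := Ideal.Quotient.mk P with hf
  haveI : IsDomain (S ⧸ P) := Ideal.Quotient.isDomain _
  have hf0 : ∀ r : S, f r = 0 ↔ r ∈ P := fun r => by
    rw [hf, Ideal.Quotient.eq_zero_iff_mem]
  have hker : RingHom.ker (CoordinateRing.map W f) = P.map (algebraMap S W.CoordinateRing) := by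
    apply le_antisymm
    · intro x hx
      rw [RingHom.mem_ker] at hx
      obtain ⟨p, q, rfl⟩ := exists_smul_basis_eq x
      rw [map_pq] at hx
      obtain ⟨h1, h2⟩ := smul_basis_eq_zero hx
      have hpol : ∀ p : S[X], p.map f = 0 → algebraMap S[X] W.CoordinateRing p ∈
          P.map (algebraMap S W.CoordinateRing) := by
        intro p hp
        have h3 : p ∈ P.map (C : S →+* S[X]) := by
          rw [Ideal.mem_map_C_iff]
          intro n
          rw [← hf0, ← coeff_map, hp, coeff_zero]
        have h4 := Ideal.mem_map_of_mem (algebraMap S[X] W.CoordinateRing) h3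
        rw [Ideal.map_map] at h4
        exact h4
      have e1 : ∀ (p : S[X]) (y : W.CoordinateRing), p • y = algebraMap S[X] W.CoordinateRing p * y :=
        fun p y => Algebra.smul_def p y
      rw [e1, e1]
      exact Ideal.add_mem _ (Ideal.mul_mem_right _ _ (hpol p h1)) (Ideal.mul_mem_right _ _ (hpol q h2))
    · rw [Ideal.map_le_iff_le_comap]
      intro r hr
      rw [Ideal.mem_comap, RingHom.mem_ker, map_alg, (hf0 r).2 hr, map_zero]
  rw [← hker]
  exact RingHom.ker_isPrime _

end crd

theorem pica : Pool.Agent.D0H76.BS.S_PICA := by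
  intro K _ _ W N hN hΔ hfin
  have hle : Submonoid.powers N ≤ nonZeroDivisors (𝓞 K) :=
    powers_le_nonZeroDivisors_of_noZeroDivisors hN
  have hdom : IsDomain (Localization.Away N) := IsLocalization.isDomain_localization hle
  refine ⟨inferInstance, ?_⟩
  have hun : ∀ y : Submonoid.powers N, IsUnit (algebraMap (𝓞 K) K y) := by
    rintro ⟨y, hy⟩
    refine isUnit_iff_ne_zero.2 fun h => ?_
    have h1 : y = 0 := (map_eq_zero_iff _ (FaithfulSMul.algebraMap_injective (𝓞 K) K)).1 h
    exact nonZeroDivisors.ne_zero (hle hy) h1
  let _ : Algebra (Localization.Away N) K :=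
    (IsLocalization.lift (M := Submonoid.powers N) hun).toAlgebra
  have hcomp : (algebraMap (Localization.Away N) K).comp (algebraMap (𝓞 K) (Localization.Away N)) =
      algebraMap (𝓞 K) K := IsLocalization.lift_comp hun
  have : IsScalarTower (𝓞 K) (Localization.Away N) K := IsScalarTower.of_algebraMap_eq' hcomp.symm
  have : IsFractionRing (Localization.Away N) K :=
    IsFractionRing.isFractionRing_of_isDomain_of_isLocalization (Submonoid.powers N)
      (Localization.Away N) K
  set S := Localization.Away N with hS0
  set V : WeierstrassCurve.Affine S := (W.baseChange S).toAffine with hV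
  have e1 : V.map (algebraMap S K) = W.baseChange K := by
    show (W.map (algebraMap (𝓞 K) S)).map (algebraMap S K) = W.map (algebraMap (𝓞 K) K)
    rw [WeierstrassCurve.map_map, hcomp]
  have hF : Function.Injective (algebraMap S K) := IsFractionRing.injective S K
  have hRS : Function.Injective (algebraMap (𝓞 K) S) := IsLocalization.injective S hle
  have hSA : Function.Injective (algebraMap S V.CoordinateRing) :=
    FaithfulSMul.algebraMap_injective _ _
  letI : Algebra (𝓞 K) V.CoordinateRing :=
    ((algebraMap S V.CoordinateRing).comp (algebraMap (𝓞 K) S)).toAlgebra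
  have hRA : ∀ r : 𝓞 K, algebraMap (𝓞 K) V.CoordinateRing r =
      algebraMap S V.CoordinateRing (algebraMap (𝓞 K) S r) := fun r => rfl
  letI : Algebra V.CoordinateRing (V.map (algebraMap S K)).toAffine.CoordinateRing :=
    (CoordinateRing.map V (algebraMap S K)).toAlgebra
  have hmap : ∀ x, algebraMap V.CoordinateRing (V.map (algebraMap S K)).toAffine.CoordinateRing x =
      CoordinateRing.map V (algebraMap S K) x := fun x => rfl
  haveI : IsNoetherianRing S := IsLocalization.isNoetherianRing (Submonoid.powers N) S inferInstance
  haveI : IsNoetherianRing V.CoordinateRing := by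
    haveI : Module.Finite S[X] V.CoordinateRing := Module.Finite.of_basis (CoordinateRing.basis V)
    exact IsNoetherianRing.of_finite S[X] _
  have hS : Setup (𝓞 K) V.CoordinateRing (V.map (algebraMap S K)).toAffine.CoordinateRing :=
    { hp := by
        intro P hP hP0
        have e2 : P.map (algebraMap (𝓞 K) V.CoordinateRing) =
            (P.map (algebraMap (𝓞 K) S)).map (algebraMap S V.CoordinateRing) := by
          rw [Ideal.map_map]
          rfl
        rw [e2]
        by_cases hNP : N ∈ P
        · right
          have h1 : P.map (algebraMap (𝓞 K) S) = ⊤ :=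
            Ideal.eq_top_of_isUnit_mem _ (Ideal.mem_map_of_mem _ hNP)
              (IsLocalization.Away.algebraMap_isUnit N)
          rw [h1, Ideal.map_top]
        · left
          refine prime_map V ?_
          refine IsLocalization.isPrime_of_isPrime_disjoint (Submonoid.powers N) S P hP ?_
          rw [Set.disjoint_left]
          rintro y ⟨n, rfl⟩ hy
          exact hNP (hP.mem_of_pow_mem n hy)
      hR := fun x y hxy => hRS (hSA hxy)
      hA := CoordinateRing.map_injective hF
      loc := by
        intro b
        obtain ⟨p, q, rfl⟩ := exists_smul_basis_eq b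
        obtain ⟨r, hr, p', hp'⟩ := exists_den (R := 𝓞 K) p
        obtain ⟨s, hs, q', hq'⟩ := exists_den (R := 𝓞 K) q
        have hpp : (p'.map (algebraMap (𝓞 K) S)).map (algebraMap S K) =
            C (algebraMap (𝓞 K) K r) * p := by
          rw [Polynomial.map_map, hcomp, hp']
        have hqq : (q'.map (algebraMap (𝓞 K) S)).map (algebraMap S K) =
            C (algebraMap (𝓞 K) K s) * q := by
          rw [Polynomial.map_map, hcomp, hq']
        have hal : ∀ r : 𝓞 K, algebraMap S K (algebraMap (𝓞 K) S r) = algebraMap (𝓞 K) K r :=
          fun r => DFunLike.congr_fun hcomp r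
        refine ⟨r * s, mul_ne_zero hr hs,
          (C (algebraMap (𝓞 K) S s) * p'.map (algebraMap (𝓞 K) S)) • (1 : V.CoordinateRing) +
          (C (algebraMap (𝓞 K) S r) * q'.map (algebraMap (𝓞 K) S)) • mk V X, ?_⟩
        rw [hRA, hmap, hmap, map_pq, map_alg, Polynomial.map_mul, Polynomial.map_mul, hpp, hqq,
          map_C, map_C, hal, hal, hal, map_mul]
        show mk (V.map (algebraMap S K)).toAffine
          (C (C (algebraMap (𝓞 K) K r * algebraMap (𝓞 K) K s))) * _ = _
        simp only [smul, C_mul, map_mul]
        ring
      unit := by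
        intro r hr
        rw [hRA, hmap, map_alg]
        exact (IsUnit.mk0 _ fun h0 => hr (hRS (by
          rw [map_zero]
          exact hF (by rw [h0, map_zero])))).map _ }
  have hB : Finite (ClassGroup (V.map (algebraMap S K)).toAffine.CoordinateRing) := by
    rw [e1]
    refine finite_of_points (W := (W.baseChange K).toAffine) (fun x y hxy => ?_) hfin
    refine ((W.baseChange K).toAffine.equation_iff_nonsingular_of_Δ_ne_zero ?_).1 hxy
    show (W.map (algebraMap (𝓞 K) K)).Δ ≠ 0
    rw [WeierstrassCurve.map_Δ]
    exact fun h0 => hΔ (FaithfulSMul.algebraMap_injective (𝓞 K) K (by rw [h0, map_zero]))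
  have hA : Finite (ClassGroup V.CoordinateRing) := finite_class hS hB
  exact Finite.of_equiv _ (ClassGroup.equivPic _).toEquiv

end Pool.Agent.D0H76.BS.PC
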