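import Pool.Agent.D0H76.BS.Stm
import Pool.Agent.D0H17.BS.Rk

/-!
# Project BSM, module RKA: the rank of the group of the `N`-units of a number field
-/

set_option autoImplicit false

open NumberField IsDedekindDomain
open scoped Classical

namespace Pool.Agent.D0H76.BS

open Pool.Agent.D0H17.BS

variable {K : Type} [Field K] [NumberField K]

/-- a unit of the localization with only one nontrivial valuation -/
theorem exists_w (N : 𝓞 K) (hN : N ≠ 0) (v : Sp N) : ∃ u : Additive (Localization.Away N)ˣ,
    vals N hN u v ≠ 0 ∧ ∀ v', v' ≠ v → vals N hN u v' = 0 := by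
  set h := Fintype.card (ClassGroup (𝓞 K)) with hh
  have hh0 : h ≠ 0 := Fintype.card_ne_zero
  have hv0 : v.1.asIdeal ∈ nonZeroDivisors (Ideal (𝓞 K)) :=
    mem_nonZeroDivisors_of_ne_zero v.1.ne_bot
  have h1 : ClassGroup.mk0 (⟨v.1.asIdeal, hv0⟩ ^ h) = 1 := by
    rw [map_pow]
    exact pow_card_eq_one
  obtain ⟨p, hp⟩ := (ClassGroup.mk0_eq_one_iff (Submonoid.pow_mem _ hv0 h)).1 h1
  rw [Ideal.submodule_span_eq] at hp
  have hp' : v.1.asIdeal ^ h = Ideal.span {p} := hp
  have hpv : p ∈ v.1.asIdeal := by
    have : p ∈ v.1.asIdeal ^ h := by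
      rw [hp']
      exact Ideal.mem_span_singleton_self p
    exact Ideal.pow_le_self hh0 this
  have hdvd : p ∣ N ^ h := by
    rw [← Ideal.mem_span_singleton, ← hp']
    exact Ideal.pow_mem_pow v.2 h
  have hu : IsUnit (algebraMap (𝓞 K) (Localization.Away N) p) := by
    obtain ⟨q, hq⟩ := hdvd
    have h1 : IsUnit (algebraMap (𝓞 K) (Localization.Away N) N ^ h) :=
      (IsLocalization.Away.algebraMap_isUnit N).pow h
    rw [← map_pow, hq, map_mul] at h1
    exact isUnit_of_mul_isUnit_left h1
  obtain ⟨w, hw⟩ := hu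
  have e : ((Additive.ofMul w).toMul : Localization.Away N) =
    algebraMap (𝓞 K) (Localization.Away N) p := hw
  refine ⟨Additive.ofMul w, ?_, fun v' hv' => ?_⟩
  · rw [Ne, vals_eq_zero, e, emb_alg, HeightOneSpectrum.valuation_eq_one_iff_notMem, not_not]
    exact hpv
  · rw [vals_eq_zero, e, emb_alg, HeightOneSpectrum.valuation_eq_one_iff_notMem]
    intro h2
    apply hv'
    have hle : v.1.asIdeal ^ h ≤ v'.1.asIdeal := by
      rw [hp', Ideal.span_singleton_le_iff_mem]
      exact h2
    have hle2 : v.1.asIdeal ≤ v'.1.asIdeal := v'.1.isPrime.le_of_pow_le hle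
    have hmax := v.1.isMaximal.eq_of_le v'.1.isPrime.ne_top hle2
    exact (Subtype.ext (HeightOneSpectrum.ext hmax)).symm

theorem rka : S_RKA := by
  intro K _ _ N hN
  have hfin : Finite (Sp N) := (Sp_finite N hN).to_subtype
  have := Fintype.ofFinite (Sp N)
  choose u hu1 hu2 using exists_w N hN
  have h1 := LinearMap.rank_range_add_rank_ker (vals N hN)
  have h2 : Module.rank ℤ (LinearMap.ker (vals N hN)) = (Units.rank K : Cardinal) := by
    rw [ker_eq, ← (LinearEquiv.ofInjective (incl N) (incl_inj N hN)).rank_eq,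
      ← Module.finrank_eq_rank, NumberField.Units.finrank_eq]
  have h3 : Module.rank ℤ (Sp N → ℤ) = ((Sp N).ncard : Cardinal) := by
    rw [rank_fun', ← Nat.card_coe_set_eq, Nat.card_eq_fintype_card]
  -- the multiples of the coordinates are valuations
  let D : (Sp N → ℤ) →ₗ[ℤ] (Sp N → ℤ) :=
    LinearMap.pi fun v => (vals N hN (u v) v) • LinearMap.proj v
  have hD : ∀ f v, D f v = vals N hN (u v) v * f v := fun f v => rfl
  have hDi : Function.Injective D := by
    intro f g hfg
    funext v
    have h4 := congrFun hfg v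
    rw [hD, hD] at h4
    exact mul_left_cancel₀ (hu1 v) h4
  have hle : LinearMap.range D ≤ LinearMap.range (vals N hN) := by
    rintro _ ⟨f, rfl⟩
    have : D f = vals N hN (∑ v, f v • u v) := by
      rw [map_sum]
      funext v'
      rw [hD, Finset.sum_apply, Finset.sum_eq_single v']
      · rw [map_smul, Pi.smul_apply, smul_eq_mul, mul_comm]
      · intro b _ hb
        rw [map_smul, Pi.smul_apply, hu2 b v' hb.symm, smul_zero]
      · intro h
        exact absurd (Finset.mem_univ _) h
    rw [this]
    exact LinearMap.mem_range_self _ _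
  have h5 : Module.rank ℤ (LinearMap.range (vals N hN)) = ((Sp N).ncard : Cardinal) := by
    refine le_antisymm ?_ ?_
    · rw [← h3]
      exact Submodule.rank_le _
    · rw [← h3, (LinearEquiv.ofInjective D hDi).rank_eq]
      exact Submodule.rank_mono hle
  rw [← h1, h2, h5]
  push_cast
  rw [add_comm]

end Pool.Agent.D0H76.BS
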