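import Pool.Agent.D0H76.BS.Frb
import Pool.Agent.D0H76.BS.Rka
import Pool.Agent.D0H76.BS.Pica
import Pool.Agent.D0H17.BS.Un

/-!
# Project BSM: the formula of Bloch and Soulé, `r ≤ 1`, for the surfaces `y² = x³ + 2 c x` over
`𝓞 K [1 / N]`, `2 c ∣ N ^ n`, if `E(K)` is finite and `L(E/K, 1) ≠ 0`
-/

set_option autoImplicit false
set_option linter.unusedSectionVars false

open NumberField IsDedekindDomain CategoryTheory AlgebraicGeometry
open scoped Classical

namespace Pool.Agent.D0H76.BS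

open Pool.Agent.H921R2.TatePole (nm below)
open Pool.Agent.D0H69.BS (CRN XN)
open Pool.Agent.D0H76.BKR (factor)
open Pool.Agent.D0H10.Q4 (cZ)

/-- the zeta function of a scheme -/
def IsZ (S : Scheme.{0}) (F : ℂ → ℂ) : Prop :=
  MeromorphicOn F Set.univ ∧ ∀ s : ℂ, 2 < s.re →
    Multipliable (fun x : {x : S // IsClosed ({x} : Set S)} =>
      (1 - ((Nat.card (S.residueField x.1) : ℂ) ^ (-s)))⁻¹) ∧
    F s = ∏' x : {x : S // IsClosed ({x} : Set S)},
      (1 - ((Nat.card (S.residueField x.1) : ℂ) ^ (-s)))⁻¹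

/-- two meromorphic functions that agree in a half-plane have the same orders -/
lemma order_unique {F G : ℂ → ℂ} (hF : MeromorphicOn F Set.univ) (hG : MeromorphicOn G Set.univ)
    {σ : ℝ} (h : ∀ s : ℂ, σ < s.re → F s = G s) (s : ℂ) :
    meromorphicOrderAt F s = meromorphicOrderAt G s := by
  have hH : MeromorphicOn (F - G) Set.univ := hF.sub hG
  have h0 : meromorphicOrderAt (F - G) ((σ + 1 : ℝ) : ℂ) = ⊤ := by
    rw [meromorphicOrderAt_eq_top_iff]
    have ho : IsOpen {s : ℂ | σ < s.re} := isOpen_lt continuous_const Complex.continuous_re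
    have hm : ((σ + 1 : ℝ) : ℂ) ∈ {s : ℂ | σ < s.re} := by
      show σ < (((σ + 1 : ℝ) : ℂ)).re
      rw [Complex.ofReal_re]
      linarith
    filter_upwards [nhdsWithin_le_nhds (ho.mem_nhds hm)] with z hz
    have hz' : σ < z.re := hz
    rw [Pi.sub_apply, h z hz', sub_self]
  have h1 : meromorphicOrderAt (F - G) s = ⊤ := by
    by_contra hs
    exact hH.meromorphicOrderAt_ne_top_of_isPreconnected isPreconnected_univ (Set.mem_univ s)
      (Set.mem_univ _) hs h0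
  rw [meromorphicOrderAt_eq_top_iff] at h1
  refine meromorphicOrderAt_congr ?_
  filter_upwards [h1] with z hz
  exact sub_eq_zero.1 hz

lemma rank_fin (G : Type*) [AddCommGroup G] [Finite G] : Module.rank ℤ G = 0 := by
  rw [rank_eq_zero_iff]
  intro x
  refine ⟨(Nat.card G : ℤ), ?_, ?_⟩
  · exact_mod_cast Nat.card_pos.ne'
  · rw [natCast_zsmul, card_nsmul_eq_zero']

/-- the formula -/
def BSF {K : Type} [Field K] [NumberField K] (W : WeierstrassCurve (𝓞 K)) (N : 𝓞 K) (u p : ℕ) : Prop :=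
  Module.rank ℤ (Additive (CRN W N)ˣ) = u ∧
    Module.rank ℤ (Additive (CommRing.Pic (CRN W N))) = p ∧
    ∀ F : ℂ → ℂ, IsZ (XN W N) F →
      meromorphicOrderAt F 1 = (((u : ℤ) - (p : ℤ) : ℤ) : WithTop ℤ) ∧
      meromorphicOrderAt F 2 = ((-1 : ℤ) : WithTop ℤ) ∧
      ∀ m : ℕ, 3 ≤ m → meromorphicOrderAt F (m : ℂ) = 0

variable {K : Type} [Field K] [NumberField K]

/-- the units of the coordinate ring -/
theorem rank_units (W : WeierstrassCurve (𝓞 K)) {N : 𝓞 K} (hN : N ≠ 0) :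
    Module.rank ℤ (Additive (CRN W N)ˣ) =
      ((Units.rank K + {v : HeightOneSpectrum (𝓞 K) | N ∈ v.asIdeal}.ncard : ℕ) : Cardinal) := by
  have hle : Submonoid.powers N ≤ nonZeroDivisors (𝓞 K) :=
    powers_le_nonZeroDivisors_of_noZeroDivisors hN
  have hdom : IsDomain (Localization.Away N) := IsLocalization.isDomain_localization hle
  rw [← rka K N hN]
  have h4 := Pool.Agent.D0H17.BS.un (Localization.Away N) (W.baseChange (Localization.Away N))
  exact ((MulEquiv.ofBijective _ h4).toAdditive.toIntLinearEquiv.rank_eq).symm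

lemma WO_disc (c : ℕ) : (WO K c).Δ = (((cZ c).Δ : ℤ) : 𝓞 K) := by
  rw [WeierstrassCurve.map_Δ]
  rfl

/-- the surface is smooth -/
lemma disc_unit {c : ℕ} {N : 𝓞 K} (hcN : ∃ n : ℕ, ((2 * c : ℕ) : 𝓞 K) ∣ N ^ n) :
    ((WO K c).baseChange (Localization.Away N)).IsElliptic := by
  refine ⟨?_⟩
  obtain ⟨n, t, ht⟩ := hcN
  have h1 : IsUnit (algebraMap (𝓞 K) (Localization.Away N) (N ^ n)) := by
    rw [map_pow]
    exact (IsLocalization.Away.algebraMap_isUnit N).pow n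
  rw [ht, map_mul] at h1
  have h3 := isUnit_of_mul_isUnit_left h1
  show IsUnit ((WO K c).map (algebraMap (𝓞 K) (Localization.Away N))).Δ
  rw [WeierstrassCurve.map_Δ, WO_disc, Pool.Agent.D0H76.BKR.disc_eq]
  have h2 : IsUnit (algebraMap (𝓞 K) (Localization.Away N) 2) := by
    rw [Nat.cast_mul, map_mul] at h3
    exact_mod_cast isUnit_of_mul_isUnit_left h3
  have e : algebraMap (𝓞 K) (Localization.Away N) (((-((2 * (c : ℤ)) ^ 3 * 64) : ℤ)) : 𝓞 K) =
      -((algebraMap (𝓞 K) (Localization.Away N) ((2 * c : ℕ) : 𝓞 K)) ^ 3 *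
        (algebraMap (𝓞 K) (Localization.Away N) 2) ^ 6) := by
    push_cast
    simp only [map_ofNat]
    norm_num
  rw [e]
  exact ((h3.pow 3).mul (h2.pow 6)).neg

/-- **the surfaces** -/
theorem main {c : ℕ} {N : 𝓞 K} (hc : c ≠ 0) (hN : N ≠ 0) (hcN : ∃ n : ℕ, ((2 * c : ℕ) : 𝓞 K) ∣ N ^ n)
    (hfin : Finite ((WO K c).baseChange K).toAffine.Point) {G : ℂ → ℂ} (hG : Differentiable ℂ G)
    (hGs : ∀ s : ℂ, 3 / 2 < s.re → HasProd (factor (K := K) (cZ c) s) (G s)) (hG1 : G 1 ≠ 0) :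
    IsDomain (CRN (WO K c) N) ∧ (∃ F : ℂ → ℂ, IsZ (XN (WO K c) N) F) ∧
      Finite (CommRing.Pic (CRN (WO K c) N)) ∧
      BSF (WO K c) N (Units.rank K + {v : HeightOneSpectrum (𝓞 K) | N ∈ v.asIdeal}.ncard) 0 := by
  have hΔ : (WO K c).Δ ≠ 0 := by
    rw [WO_disc, Pool.Agent.D0H76.BKR.disc_eq]
    have h1 : -((2 * (c : ℤ)) ^ 3 * 64) ≠ 0 := by
      have h0 : (c : ℤ) ≠ 0 := by exact_mod_cast hc
      exact neg_ne_zero.2 (mul_ne_zero (pow_ne_zero 3 (mul_ne_zero two_ne_zero h0)) (by norm_num))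
    exact_mod_cast h1
  obtain ⟨hd, hp⟩ := PC.pica K (WO K c) N hN hΔ hfin
  obtain ⟨F, f1, f2, f3, f4, f5⟩ := zeta_mer hN
    (fun v hv => (bt_spec c v (not_dvd hcN hv)).1) (lc hcN) hG (fun s hs => by
      simp only [inv_inv]
      exact hGs s hs)
  refine ⟨hd, ⟨F, f1, fun s hs => f2 s hs⟩, hp, rank_units _ hN, ?_, fun F' hF' => ?_⟩
  · rw [rank_fin, Nat.cast_zero]
  · have hu : ∀ s : ℂ, meromorphicOrderAt F' s = meromorphicOrderAt F s :=
      order_unique hF'.1 f1 (σ := 2) fun s hs => by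
        rw [(hF'.2 s hs).2, (f2 s hs).2]
        rfl
    rw [hu, hu, f3 hG1, f4, Nat.cast_zero, sub_zero]
    exact ⟨rfl, rfl, fun m hm => by rw [hu, f5 m hm]⟩

end Pool.Agent.D0H76.BS
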