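import Pool.Agent.D0H10.Q4.AllQ
import Pool.Agent.D0H76.BKR.Twl
import Pool.Agent.D0H76.BKR.Fld
import Pool.Agent.D0H76.BKR.Deg
import Pool.Agent.D0H76.BS.Asm

/-!
# Project BSM: the surfaces `y² = x³ + 2 m d² x` over the open subsets of `Spec 𝓞 k`, `k ⊆ ℚ(√p : p ∣ m)`
-/

set_option autoImplicit false
set_option linter.unusedSectionVars false

open NumberField IsDedekindDomain CategoryTheory AlgebraicGeometry
open scoped Classical

namespace Pool.Agent.D0H76.BS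

open Pool.Agent.D0H69.BS (CRN XN)
open Pool.Agent.D0H76.BKR (factor S_TWL ef IsMq cR cF cF_base finite_F Sup euler_sub)
open Pool.Agent.D0H10.Q4 (cZ Adm matQ)
open Pool.Agent.TH841.SH.D (Pt act)

/-- the central values -/
theorem twl : S_TWL := Pool.Agent.D0H76.BKR.twl_of Pool.Agent.D0H77.Q4.sup Pool.Agent.D0H54.Q4.hec
  Pool.Agent.D0H52.Q4.lim Pool.Agent.D0H10.Q4.betA Pool.Agent.D0H84.Q4.cri

variable {m : ℕ} {K : Type} [Field K] [NumberField K]

/-- the points over the subfields -/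
theorem finite_sub (h : Adm m) (hd : (matQ m).det ≠ 0) (hK : IsMq m K) {e : ℕ} (he : Sup m e)
    (k : IntermediateField ℚ K) : Finite ((WO k (m * e ^ 2)).baseChange k).toAffine.Point := by
  have h1 : Finite (Pt (cR (m * e ^ 2)) K) := by
    have h2 := finite_F h hd hK he
    unfold Pt at h2 ⊢
    rw [cF_base] at h2
    have e1 : (cR (m * e ^ 2)).baseChange K = cF (m * e ^ 2) K := cF_base (F := ℚ)
    rw [e1]
    exact h2
  have h3 : Finite (Pt (cR (m * e ^ 2)) k) := by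
    refine Finite.of_injective (act (cR (m * e ^ 2)) k.val) ?_
    exact @WeierstrassCurve.Affine.Point.map_injective ℚ ℚ k K _ _ _ _ (cR (m * e ^ 2))
      (Classical.decEq _) (Classical.decEq _) _ _ _ _ _ _ _ k.val
  unfold Pt at h3
  have e2 : (cR (m * e ^ 2)).baseChange k = (WO k (m * e ^ 2)).baseChange k := by
    have e3 : (cR (m * e ^ 2)).baseChange k = cF (m * e ^ 2) k := cF_base (F := ℚ)
    rw [e3]
    show (cZ (m * e ^ 2)).map _ = ((cZ (m * e ^ 2)).map _).map _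
    rw [WeierstrassCurve.map_map]
    congr 1
  rw [← e2]
  exact h3

/-- **the surfaces over the subfields of the multiquadratic field** -/
theorem final (h : Adm m) (hd : (matQ m).det ≠ 0) (hK : IsMq m K) {d : ℕ} (hdm : d ∣ m)
    (k : IntermediateField ℚ K) {N : 𝓞 k} (hN : N ≠ 0) (hmN : ((2 * m : ℕ) : 𝓞 k) ∣ N) :
    ((WO k (m * d ^ 2)).baseChange (Localization.Away N)).IsElliptic ∧
    IsDomain (CRN (WO k (m * d ^ 2)) N) ∧ (∃ F : ℂ → ℂ, IsZ (XN (WO k (m * d ^ 2)) N) F) ∧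
      Finite (CommRing.Pic (CRN (WO k (m * d ^ 2)) N)) ∧
      BSF (WO k (m * d ^ 2)) N
        (Module.finrank ℚ k - 1 + {v : HeightOneSpectrum (𝓞 k) | N ∈ v.asIdeal}.ncard) 0 := by
  have hm0 : m ≠ 0 := h.1.ne_zero
  have hd0 : d ≠ 0 := fun h0 => hm0 (Nat.eq_zero_of_zero_dvd (h0 ▸ hdm))
  have hc : m * d ^ 2 ≠ 0 := mul_ne_zero hm0 (pow_ne_zero 2 hd0)
  have hs := Sup.of_dvd hm0 hdm
  have hcN : ∃ n : ℕ, ((2 * (m * d ^ 2) : ℕ) : 𝓞 k) ∣ N ^ n := by
    refine ⟨3, dvd_trans ?_ (pow_dvd_pow_of_dvd hmN 3)⟩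
    have h1 : 2 * (m * d ^ 2) ∣ (2 * m) ^ 3 := by
      obtain ⟨t, rfl⟩ := hdm
      exact ⟨4 * t ^ 2, by ring⟩
    exact_mod_cast (Nat.cast_dvd_cast (α := 𝓞 k) h1)
  obtain ⟨ι, hι, δ, h1, h2⟩ := euler_sub h hK hdm k
  have h3 : ∀ e : ℕ, ∃ L : ℂ → ℂ, e ∣ m → Differentiable ℂ L ∧ L 1 ≠ 0 ∧
      ∀ s : ℂ, (3 : ℝ) / 2 < s.re → HasProd (ef m e s) (L s) := by
    intro e
    by_cases he : e ∣ m
    · obtain ⟨L, hL⟩ := twl m h hd e he
      exact ⟨L, fun _ => hL⟩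
    · exact ⟨0, fun h => absurd h he⟩
  choose G hG using h3
  obtain ⟨a1, a2, a3, a4⟩ := main hc hN hcN (finite_sub h hd hK hs k) (G := fun s => ∏ i, G (δ i) s)
    (Differentiable.fun_finsetProd fun i _ => (hG (δ i) (h1 i)).1)
    (fun s hs => h2 G (fun e he => (hG e he).2.2) s hs)
    (Finset.prod_ne_zero_iff.2 fun i _ => (hG (δ i) (h1 i)).2.1)
  have hr : Units.rank k = Module.finrank ℚ k - 1 := by
    have hKr : IsTotallyReal K := hK.real
    have hkr : IsTotallyReal k := inferInstance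
    unfold Units.rank
    rw [InfinitePlace.card_eq_nrRealPlaces_add_nrComplexPlaces,
      IsTotallyReal.nrComplexPlaces_eq_zero, add_zero, ← IsTotallyReal.finrank]
  rw [hr] at a4
  exact ⟨disc_unit hcN, a1, a2, a3, a4⟩

end Pool.Agent.D0H76.BS
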