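import Pool.Agent.D0H76.BS.Mer
import Pool.Agent.D0H76.BKR.Ek

/-!
# Project BSM: the local data of the curves `y² = x³ + 2 c x` over the integers of a number field
-/

set_option autoImplicit false
set_option linter.unusedSectionVars false

open NumberField IsDedekindDomain H300.HW
open W165.CE (pw pw_eq pw_luc)
open Pool.Agent.H82R3.EK (luc luc_eq natCast_mem_iff nm_cpow prime_cpow)
open Pool.Agent.Y884.XT (card_quot charP_quot)
open scoped Classical

namespace Pool.Agent.D0H76.BS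

open Pool.Agent.H921R2.TatePole (nm two_le_nm below deg nm_eq)
open Pool.Agent.D0H69.BS (Frob Sol CRN XN beta_lt conj_mul' one_sub_ne)
open Pool.Agent.D0H76.BKR (pts av factor pts_cubic pts_bound tf pp tf_bad mem_iff av_eq)
open Pool.Agent.D0H10.Q4 (cZ)

/-- the root of the polynomial of Frobenius -/
lemma exists_root {t p : ℤ} (h : |(t : ℝ)| ≤ 2 * Real.sqrt p) (hp : 0 ≤ p) :
    ∃ α : ℂ, α * (starRingEnd ℂ) α = p ∧ α + (starRingEnd ℂ) α = t := by
  have hp' : (0 : ℝ) ≤ p := by exact_mod_cast hp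
  have h1 : (t : ℝ) ^ 2 ≤ 4 * p := by
    have h2 : |(t : ℝ)| ^ 2 ≤ (2 * Real.sqrt p) ^ 2 := by gcongr
    rw [sq_abs, mul_pow, Real.sq_sqrt hp'] at h2
    linarith
  refine ⟨⟨t / 2, Real.sqrt (p - (t : ℝ) ^ 2 / 4)⟩, ?_, ?_⟩
  · rw [Complex.mul_conj, Complex.normSq_mk, Real.mul_self_sqrt (by linarith)]
    have : (t : ℝ) / 2 * (t / 2) + (p - (t : ℝ) ^ 2 / 4) = p := by ring
    rw [this]
    simp
  · apply Complex.ext
    · simp
    · simp

variable {K : Type} [Field K] [NumberField K]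

/-- the curve over the ring of integers -/
noncomputable abbrev WO (K : Type) [Field K] [NumberField K] (c : ℕ) : WeierstrassCurve (𝓞 K) :=
  (cZ c).map (Int.castRingHom (𝓞 K))

lemma card_sol (c : ℕ) {F : Type} [Field F] (f : 𝓞 K →+* F) :
    Nat.card (Sol (WO K c) f) = pts (cZ c) F := by
  rw [pts_cubic]
  refine Nat.card_congr (Equiv.subtypeEquivRight fun x => ?_)
  show x.2 ^ 2 + f (((0 : ℤ) : 𝓞 K)) * x.1 * x.2 + f (((0 : ℤ) : 𝓞 K)) * x.2 =
    x.1 ^ 3 + f (((0 : ℤ) : 𝓞 K)) * x.1 ^ 2 + f (((2 * c : ℤ) : 𝓞 K)) * x.1 +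
      f (((0 : ℤ) : 𝓞 K)) ↔ _
  rw [map_intCast, map_intCast]
  push_cast
  constructor
  · intro h
    linear_combination h
  · intro h
    linear_combination h

/-- the trace over a finite field of characteristic `p` -/
lemma card_ext {c p : ℕ} [Fact p.Prime] (hp : ¬ p ∣ 2 * c) {α : ℂ}
    (h1 : α * (starRingEnd ℂ) α = (p : ℤ)) (h2 : α + (starRingEnd ℂ) α = tf c p)
    (F : Type) [Field F] [Finite F] (n : ℕ) (hpF : (p : F) = 0) (hF : Nat.card F = p ^ n) :
    (pts (cZ c) F : ℂ) = Nat.card F - (α ^ n + (starRingEnd ℂ) α ^ n) := by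
  have := Fintype.ofFinite F
  have hP : p.Prime := Fact.out
  have hch : CharP F p := by
    obtain ⟨q, hq⟩ := CharP.exists F
    have hdv : q ∣ p := (CharP.cast_eq_zero_iff F q p).1 hpF
    have hq1 : q ≠ 1 := by
      rintro rfl
      exact CharP.char_ne_one F 1 rfl
    rwa [(Nat.prime_dvd_prime_iff_eq (CharP.char_is_prime F q) hP).1 hdv] at hq
  let _ : Algebra (ZMod p) F := ZMod.algebra _ _
  have hfin : Module.finrank (ZMod p) F = n := by
    apply Nat.pow_right_injective hP.two_le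
    show p ^ _ = p ^ _
    rw [FiniteField.pow_finrank_eq_natCard p, hF]
  have hp2 : p ≠ 2 := fun h => hp (by rw [h]; exact dvd_mul_right _ _)
  have hpc : ¬ p ∣ c := fun h => hp (h.mul_left _)
  have e1 := Pool.Agent.Y18.JT.s_cubext p hp2 0 (2 * c) 0 (by
    intro h
    have e0 : ((0 : ℤ) ^ 2 * (2 * c) ^ 2 - 4 * (2 * c) ^ 3 - 4 * 0 ^ 3 * 0 - 27 * 0 ^ 2 +
        18 * 0 * (2 * c) * 0) = -(((2 ^ 5 * c ^ 3 : ℕ)) : ℤ) := by
      push_cast
      ring
    rw [e0, Int.dvd_neg] at h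
    have h7' : p ∣ 2 ^ 5 * c ^ 3 := by exact_mod_cast h
    rcases (Nat.Prime.dvd_mul hP).1 h7' with h8 | h8
    · exact hp2 ((Nat.prime_dvd_prime_iff_eq hP Nat.prime_two).1 (hP.dvd_of_dvd_pow h8))
    · exact hpc (hP.dvd_of_dvd_pow h8)) F
  rw [hfin, ← pts_cubic c F, ← pts_cubic c (ZMod p)] at e1
  have e2 := congrArg (fun z : ℤ => (z : ℂ)) e1

  have e3 := luc_eq (a := tf c p) (q := (p : ℤ)) h2 h1 n
  unfold tf at e3
  rw [e3] at e2
  push_cast at e2
  rw [Nat.card_eq_fintype_card]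
  linear_combination -e2

/-- **the local data** -/
theorem exists_frob (c : ℕ) (v : HeightOneSpectrum (𝓞 K)) (h : ¬ (below v : ℕ) ∣ 2 * c) :
    ∃ β : ℂ, Frob (WO K c) v β ∧ ∀ s : ℂ, (factor (cZ c) s v)⁻¹ =
      (1 - β * (nm v : ℂ) ^ (-s)) * (1 - (starRingEnd ℂ) β * (nm v : ℂ) ^ (-s)) := by
  have hfp : Fact (below v : ℕ).Prime := ⟨(below v).2⟩
  obtain ⟨a1, a2, a3⟩ := nm_eq v
  have hp2 : (below v : ℕ) ≠ 2 := fun h' => h (by rw [h']; exact dvd_mul_right _ _)
  have hb : |((tf c (below v) : ℤ) : ℝ)| ≤ 2 * Real.sqrt (((below v : ℕ) : ℤ) : ℝ) := by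
    have h1 := pts_bound c (k := ZMod (below v : ℕ)) (by
      rw [ZMod.ringChar_zmod_n]
      exact hp2)
    rw [ZMod.card] at h1
    unfold tf
    push_cast at h1 ⊢
    exact h1
  obtain ⟨α, h1, h2⟩ := exists_root hb (by positivity)
  have hnm : nm v = (below v : ℕ) ^ deg v := a1
  refine ⟨α ^ deg v, ⟨?_, fun F _ _ f r hf hF => ?_⟩, fun s => ?_⟩
  · rw [map_pow, ← mul_pow, h1, hnm]
    push_cast
    rfl
  · rw [card_sol, card_ext (n := deg v * r) h h1 h2 F ?_ (by rw [hF, hnm, pow_mul]), map_pow,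
      ← pow_mul, ← pow_mul]
    have h3 : (((below v : ℕ) : ℕ) : 𝓞 K) ∈ v.asIdeal := (natCast_mem_iff v _).2 dvd_rfl
    rw [← hf, RingHom.mem_ker, map_natCast] at h3
    exact h3
  · have hpp : pp c (below v) = ((below v : ℕ) : ℤ) := by
      unfold pp
      rw [if_neg h]
      push_cast
      rfl
    have e1 : ((av (cZ c) v : ℤ) : ℂ) = α ^ deg v + (starRingEnd ℂ) α ^ deg v := by
      rw [av_eq c v, hpp, pw_eq h2 h1]
    unfold factor
    rw [inv_inv, if_neg (fun h' => h ((mem_iff c v).1 h')), e1]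
    have e2 : ((Ideal.absNorm v.asIdeal : ℕ) : ℂ) ^ (1 - 2 * s) =
        (nm v : ℂ) * ((nm v : ℂ) ^ (-s)) ^ 2 := by
      have hne : (nm v : ℂ) ≠ 0 := by
        have := two_le_nm v
        exact_mod_cast (by omega : nm v ≠ 0)
      show (nm v : ℂ) ^ (1 - 2 * s) = _
      rw [← Complex.cpow_nat_mul, sub_eq_add_neg, Complex.cpow_add _ _ hne, Complex.cpow_one]
      congr 2
      push_cast
      ring
    have e3 : α ^ deg v * (starRingEnd ℂ) (α ^ deg v) = (nm v : ℂ) := by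
      rw [map_pow, ← mul_pow, h1, hnm]
      push_cast
      rfl
    rw [e2, map_pow]
    rw [map_pow] at e3
    show 1 - (α ^ deg v + (starRingEnd ℂ) α ^ deg v) * (nm v : ℂ) ^ (-s) + _ = _
    linear_combination (-((nm v : ℂ) ^ (-s)) ^ 2) * e3

/-- the factor at a bad place -/
lemma factor_bad (c : ℕ) (v : HeightOneSpectrum (𝓞 K)) (h : (below v : ℕ) ∣ 2 * c) (s : ℂ) :
    factor (cZ c) s v = 1 := by
  obtain ⟨a1, a2, a3⟩ := nm_eq v
  have hpp : pp c (below v) = 0 := by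
    unfold pp
    rw [if_pos h]
  unfold factor
  rw [if_pos ((mem_iff c v).2 h), av_eq c v, hpp, tf_bad (below v).2 h,
    pw_eq (α := 0) (β := 0) (by simp) (by simp), zero_pow a2.ne']
  simp

/-- the function of the eigenvalues -/
noncomputable def bt (K : Type) [Field K] [NumberField K] (c : ℕ) (v : HeightOneSpectrum (𝓞 K)) : ℂ :=
  if h : ¬ (below v : ℕ) ∣ 2 * c then (exists_frob c v h).choose else 0

lemma bt_spec (c : ℕ) (v : HeightOneSpectrum (𝓞 K)) (h : ¬ (below v : ℕ) ∣ 2 * c) :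
    Frob (WO K c) v (bt K c v) ∧ ∀ s : ℂ, (factor (cZ c) s v)⁻¹ =
      (1 - bt K c v * (nm v : ℂ) ^ (-s)) * (1 - (starRingEnd ℂ) (bt K c v) * (nm v : ℂ) ^ (-s)) := by
  unfold bt
  rw [dif_pos h]
  exact (exists_frob c v h).choose_spec

lemma not_dvd {c : ℕ} {N : 𝓞 K} (hcN : ∃ n : ℕ, ((2 * c : ℕ) : 𝓞 K) ∣ N ^ n)
    {v : HeightOneSpectrum (𝓞 K)} (h : N ∉ v.asIdeal) : ¬ (below v : ℕ) ∣ 2 * c := fun h' => h (by
  obtain ⟨n, t, ht⟩ := hcN
  refine v.isPrime.mem_of_pow_mem n ?_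
  rw [ht]
  exact Ideal.mul_mem_right _ _ ((natCast_mem_iff v _).2 h'))

/-- the local data of the curve -/
theorem lc {c : ℕ} {N : 𝓞 K} (hcN : ∃ n : ℕ, ((2 * c : ℕ) : 𝓞 K) ∣ N ^ n) :
    Lc N (bt K c) (fun s v => (factor (cZ c) s v)⁻¹) where
  nrm v h := (bt_spec c v (not_dvd hcN h)).1.1
  good v h s := (bt_spec c v (not_dvd hcN h)).2 s
  diff v _ := by
    by_cases h : (below v : ℕ) ∣ 2 * c
    · have : (fun s => (factor (cZ c) s v)⁻¹) = fun _ => (1 : ℂ) := by
        funext s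
        rw [factor_bad c v h, inv_one]
      rw [this]
      exact differentiable_const _
    · have : (fun s => (factor (cZ c) s v)⁻¹) = fun s => (1 - bt K c v * (nm v : ℂ) ^ (-s)) *
          (1 - (starRingEnd ℂ) (bt K c v) * (nm v : ℂ) ^ (-s)) := by
        funext s
        exact (bt_spec c v h).2 s
      rw [this]
      have hne : (nm v : ℂ) ≠ 0 := by
        have := two_le_nm v
        exact_mod_cast (by omega : nm v ≠ 0)
      have hq : Differentiable ℂ fun s : ℂ => (nm v : ℂ) ^ (-s) := fun s =>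
        DifferentiableAt.const_cpow (by fun_prop) (Or.inl hne)
      exact ((differentiable_const _).sub ((differentiable_const _).mul hq)).mul
        ((differentiable_const _).sub ((differentiable_const _).mul hq))
  ne v _ s hs := by
    by_cases h : (below v : ℕ) ∣ 2 * c
    · rw [factor_bad c v h, inv_one]
      exact one_ne_zero
    · rw [(bt_spec c v h).2 s]
      have h1 := (bt_spec c v h).1.1
      exact mul_ne_zero (one_sub_ne (beta_lt h1 hs)) (one_sub_ne (beta_lt (conj_mul' h1) hs))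

end Pool.Agent.D0H76.BS
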