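import Pool.Agent.D0H76.BS.Asm

/-!
# Project BSM: the formula of Bloch and Soulé, `r ≤ 1`, for the affine surfaces `W` over `𝓞 K [1 / N]`,
`2 Δ ∣ N ^ n`, for an arbitrary Weierstrass equation `W` over `ℤ`, if `E(K)` is finite and `L(E/K, 1) ≠ 0`
-/

set_option autoImplicit false
set_option linter.unusedSectionVars false

open NumberField IsDedekindDomain CategoryTheory AlgebraicGeometry H300.HW
open Pool.Agent.H82R3.EK (luc luc_eq natCast_mem_iff nm_cpow prime_cpow card_points)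
open Pool.Agent.Y884.XT (card_quot charP_quot)
open scoped Classical

namespace Pool.Agent.D0H76.BS.Gn

open Pool.Agent.H921R2.TatePole (nm two_le_nm below deg nm_eq)
open Pool.Agent.D0H69.BS (Frob Sol CRN XN beta_lt conj_mul' one_sub_ne)
open Pool.Agent.D0H76.BKR (pts av factor)

variable (W : WeierstrassCurve ℤ)

lemma eq_iff {k : Type} [CommRing k] (x y : k) : (W.map (Int.castRingHom k)).toAffine.Equation x y ↔
    y ^ 2 + (W.a₁ : k) * x * y + (W.a₃ : k) * y =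
      x ^ 3 + (W.a₂ : k) * x ^ 2 + (W.a₄ : k) * x + (W.a₆ : k) := by
  rw [WeierstrassCurve.Affine.equation_iff]
  simp only [WeierstrassCurve.map, eq_intCast]

/-- the cubic form in odd characteristic -/
lemma pts_cubic (k : Type) [Field k] (h2 : (2 : k) ≠ 0) : pts W k =
    Nat.card {x : k × k // x.2 ^ 2 = x.1 ^ 3 + ((W.b₂ : ℤ) : k) * x.1 ^ 2 +
      ((8 * W.b₄ : ℤ) : k) * x.1 + ((16 * W.b₆ : ℤ) : k)} := by
  have h4 : (4 : k) ≠ 0 := by
    rw [show (4 : k) = 2 * 2 by norm_num]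
    exact mul_ne_zero h2 h2
  have h8 : (8 : k) ≠ 0 := by
    rw [show (8 : k) = 2 * 4 by norm_num]
    exact mul_ne_zero h2 h4
  have h64 : (64 : k) ≠ 0 := by
    rw [show (64 : k) = 8 * 8 by norm_num]
    exact mul_ne_zero h8 h8
  unfold pts
  refine Nat.card_congr
    { toFun := fun x => ⟨(4 * x.1.1, 4 * (2 * x.1.2 + (W.a₁ : k) * x.1.1 + (W.a₃ : k))), ?_⟩
      invFun := fun x => ⟨(x.1.1 / 4, (x.1.2 - (W.a₁ : k) * x.1.1 - 4 * (W.a₃ : k)) / 8), ?_⟩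
      left_inv := fun x => ?_
      right_inv := fun x => ?_ }
  · have h := (eq_iff W _ _).1 x.2
    simp only [WeierstrassCurve.b₂, WeierstrassCurve.b₄, WeierstrassCurve.b₆]
    push_cast
    linear_combination 64 * h
  · have h := x.2
    simp only [WeierstrassCurve.b₂, WeierstrassCurve.b₄, WeierstrassCurve.b₆] at h
    push_cast at h
    refine (eq_iff W _ _).2 ?_
    have e1 : (x.1.1 / 4) * 4 = x.1.1 := div_mul_cancel₀ _ h4
    have e2 : ((x.1.2 - (W.a₁ : k) * x.1.1 - 4 * (W.a₃ : k)) / 8) * 8 =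
      x.1.2 - (W.a₁ : k) * x.1.1 - 4 * (W.a₃ : k) := div_mul_cancel₀ _ h8
    apply mul_left_cancel₀ h64
    show 64 * (((x.1.2 - (W.a₁ : k) * x.1.1 - 4 * (W.a₃ : k)) / 8) ^ 2 + (W.a₁ : k) * (x.1.1 / 4) *
      ((x.1.2 - (W.a₁ : k) * x.1.1 - 4 * (W.a₃ : k)) / 8) +
      (W.a₃ : k) * ((x.1.2 - (W.a₁ : k) * x.1.1 - 4 * (W.a₃ : k)) / 8)) =
      64 * ((x.1.1 / 4) ^ 3 + (W.a₂ : k) * (x.1.1 / 4) ^ 2 + (W.a₄ : k) * (x.1.1 / 4) + (W.a₆ : k))
    set Y := (x.1.2 - (W.a₁ : k) * x.1.1 - 4 * (W.a₃ : k)) / 8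
    have e3 : x.1.2 = 8 * Y + (W.a₁ : k) * x.1.1 + 4 * (W.a₃ : k) := by
      linear_combination -e2
    rw [e3] at h
    set X := x.1.1 / 4
    rw [← e1] at h
    linear_combination h
  · apply Subtype.ext
    apply Prod.ext
    · show 4 * x.1.1 / 4 = x.1.1
      field_simp
    · show (4 * (2 * x.1.2 + (W.a₁ : k) * x.1.1 + (W.a₃ : k)) - (W.a₁ : k) * (4 * x.1.1) -
        4 * (W.a₃ : k)) / 8 = x.1.2
      rw [div_eq_iff h8]
      ring
  · apply Subtype.ext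
    apply Prod.ext
    · show 4 * (x.1.1 / 4) = x.1.1
      field_simp
    · show 4 * (2 * ((x.1.2 - (W.a₁ : k) * x.1.1 - 4 * (W.a₃ : k)) / 8) + (W.a₁ : k) * (x.1.1 / 4) +
        (W.a₃ : k)) = x.1.2
      have e1 : (x.1.1 / 4) * 4 = x.1.1 := div_mul_cancel₀ _ h4
      have e2 : ((x.1.2 - (W.a₁ : k) * x.1.1 - 4 * (W.a₃ : k)) / 8) * 8 =
        x.1.2 - (W.a₁ : k) * x.1.1 - 4 * (W.a₃ : k) := div_mul_cancel₀ _ h8
      linear_combination e2 + (W.a₁ : k) * e1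

/-- Hasse's bound -/
lemma pts_bound {k : Type} [Field k] [Fintype k] (hk : ringChar k ≠ 2) :
    |((Fintype.card k : ℤ) - pts W k : ℝ)| ≤ 2 * Real.sqrt (Fintype.card k) := by
  have h2 : (2 : k) ≠ 0 := Ring.two_ne_zero hk
  rw [pts_cubic W k h2]
  set P : Polynomial k := Polynomial.X ^ 3 + Polynomial.C ((W.b₂ : ℤ) : k) * Polynomial.X ^ 2 +
    Polynomial.C ((8 * W.b₄ : ℤ) : k) * Polynomial.X + Polynomial.C ((16 * W.b₆ : ℤ) : k) with hP
  have hdeg : P.natDegree = 3 := by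
    rw [hP]
    compute_degree!
  have hmon : P.Monic := by
    rw [hP]
    monicity!
  have hns : ∀ (c : k) (h : Polynomial k), P ≠ Polynomial.C c * h ^ 2 := by
    intro c h he
    have h1 := congrArg Polynomial.natDegree he
    rw [hdeg] at h1
    have hc : c ≠ 0 := by
      rintro rfl
      rw [map_zero, zero_mul, Polynomial.natDegree_zero] at h1
      omega
    rw [Polynomial.natDegree_C_mul hc, Polynomial.natDegree_pow] at h1
    omega
  have h4 := Pool.Agent.H341R2.Sharp.weil_sharp_monic hk hmon (by rw [hdeg]; norm_num) hns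
  rw [hdeg] at h4
  have h5 : ∀ x : k, P.eval x = x ^ 3 + ((W.b₂ : ℤ) : k) * x ^ 2 + ((8 * W.b₄ : ℤ) : k) * x +
      ((16 * W.b₆ : ℤ) : k) := by
    intro x
    rw [hP]
    simp only [Polynomial.eval_add, Polynomial.eval_mul, Polynomial.eval_pow, Polynomial.eval_X,
      Polynomial.eval_C]
  simp_rw [h5] at h4
  have h6 := congrArg (fun z : ℤ => (z : ℝ)) (card_points hk (fun x : k =>
    x ^ 3 + ((W.b₂ : ℤ) : k) * x ^ 2 + ((8 * W.b₄ : ℤ) : k) * x + ((16 * W.b₆ : ℤ) : k)))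
  push_cast only [Int.cast_add, Int.cast_sum, Int.cast_natCast] at h6
  rw [h6, Int.cast_natCast, show (Fintype.card k : ℝ) - (Fintype.card k +
    ∑ x : k, (quadraticChar k (x ^ 3 + ((W.b₂ : ℤ) : k) * x ^ 2 + ((8 * W.b₄ : ℤ) : k) * x +
      ((16 * W.b₆ : ℤ) : k)) : ℝ)) =
    - ∑ x : k, (quadraticChar k (x ^ 3 + ((W.b₂ : ℤ) : k) * x ^ 2 + ((8 * W.b₄ : ℤ) : k) * x +
      ((16 * W.b₆ : ℤ) : k)) : ℝ) by ring, abs_neg]
  refine h4.trans (le_of_eq ?_)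
  norm_num

lemma disc_cubic : W.b₂ ^ 2 * (8 * W.b₄) ^ 2 - 4 * (8 * W.b₄) ^ 3 - 4 * W.b₂ ^ 3 * (16 * W.b₆) -
    27 * (16 * W.b₆) ^ 2 + 18 * W.b₂ * (8 * W.b₄) * (16 * W.b₆) = 2 ^ 8 * W.Δ := by
  rw [WeierstrassCurve.Δ]
  linear_combination (64 * W.b₂ ^ 2) * W.b_relation

/-- the trace of the Frobenius at `p` -/
noncomputable def tf (p : ℕ) : ℤ := (p : ℤ) - pts W (ZMod p)

/-- the trace over a finite field of characteristic `p` -/
lemma card_ext {p : ℕ} [Fact p.Prime] (hp : ¬ (p : ℤ) ∣ 2 * W.Δ) {α : ℂ}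
    (h1 : α * (starRingEnd ℂ) α = (p : ℤ)) (h2 : α + (starRingEnd ℂ) α = tf W p)
    (F : Type) [Field F] [Finite F] (n : ℕ) (hpF : (p : F) = 0) (hF : Nat.card F = p ^ n) :
    (pts W F : ℂ) = Nat.card F - (α ^ n + (starRingEnd ℂ) α ^ n) := by
  have := Fintype.ofFinite F
  have hP : p.Prime := Fact.out
  have hPI : Prime (p : ℤ) := Nat.prime_iff_prime_int.1 hP
  have hch : CharP F p := by
    obtain ⟨q, hq⟩ := CharP.exists F
    have hdv : q ∣ p := (CharP.cast_eq_zero_iff F q p).1 hpF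
    have hq1 : q ≠ 1 := by
      rintro rfl
      exact CharP.char_ne_one F 1 rfl
    rwa [(Nat.prime_dvd_prime_iff_eq (CharP.char_is_prime F q) hP).1 hdv] at hq
  let _ : Algebra (ZMod p) F := ZMod.algebra _ _
  have hfin : Module.finrank (ZMod p) F = n := by
    apply Nat.pow_right_injective hP.two_le
    show p ^ _ = p ^ _
    rw [FiniteField.pow_finrank_eq_natCard p, hF]
  have hp2 : p ≠ 2 := fun h => hp (by rw [h]; exact dvd_mul_right _ _)
  have hne : ∀ (k : Type) [Field k] [CharP k p], (2 : k) ≠ 0 := by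
    intro k _ _ h
    have h' : ((2 : ℕ) : k) = 0 := by exact_mod_cast h
    rw [CharP.cast_eq_zero_iff k p] at h'
    exact hp2 ((Nat.prime_dvd_prime_iff_eq hP Nat.prime_two).1 h')
  have e1 := Pool.Agent.Y18.JT.s_cubext p hp2 W.b₂ (8 * W.b₄) (16 * W.b₆) (by
    intro h
    rw [disc_cubic] at h
    rcases hPI.dvd_or_dvd h with h8 | h8
    · have h9 : (p : ℤ) ∣ 2 := hPI.dvd_of_dvd_pow h8
      exact hp (h9.mul_right _)
    · exact hp (h8.mul_left _)) F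
  rw [hfin, ← pts_cubic W F (hne F), ← pts_cubic W (ZMod p) (hne (ZMod p))] at e1
  have e2 := congrArg (fun z : ℤ => (z : ℂ)) e1
  have e3 := luc_eq (a := tf W p) (q := (p : ℤ)) h2 h1 n
  unfold tf at e3
  rw [e3] at e2
  push_cast at e2
  rw [Nat.card_eq_fintype_card]
  linear_combination -e2

variable (K : Type) [Field K] [NumberField K]

/-- the curve over the ring of integers -/
noncomputable abbrev WG : WeierstrassCurve (𝓞 K) := W.map (Int.castRingHom (𝓞 K))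

variable {K}

lemma card_sol {F : Type} [Field F] (f : 𝓞 K →+* F) :
    Nat.card (Sol (WG W K) f) = pts W F := by
  unfold pts
  refine Nat.card_congr (Equiv.subtypeEquivRight fun x => ?_)
  rw [eq_iff]
  show x.2 ^ 2 + f ((W.a₁ : ℤ) : 𝓞 K) * x.1 * x.2 + f ((W.a₃ : ℤ) : 𝓞 K) * x.2 =
    x.1 ^ 3 + f ((W.a₂ : ℤ) : 𝓞 K) * x.1 ^ 2 + f ((W.a₄ : ℤ) : 𝓞 K) * x.1 +
      f ((W.a₆ : ℤ) : 𝓞 K) ↔ _
  rw [map_intCast, map_intCast, map_intCast, map_intCast, map_intCast]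

/-- **the local data** -/
theorem exists_frob (v : HeightOneSpectrum (𝓞 K)) (h : ¬ ((below v : ℕ) : ℤ) ∣ 2 * W.Δ) :
    ∃ β : ℂ, Frob (WG W K) v β ∧ ∀ s : ℂ, (factor W s v)⁻¹ =
      (1 - β * (nm v : ℂ) ^ (-s)) * (1 - (starRingEnd ℂ) β * (nm v : ℂ) ^ (-s)) := by
  have hfp : Fact (below v : ℕ).Prime := ⟨(below v).2⟩
  obtain ⟨a1, a2, a3⟩ := nm_eq v
  have hp2 : (below v : ℕ) ≠ 2 := fun h' => h (by rw [h']; exact dvd_mul_right _ _)
  have hb : |((tf W (below v) : ℤ) : ℝ)| ≤ 2 * Real.sqrt (((below v : ℕ) : ℤ) : ℝ) := by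
    have h1 := pts_bound W (k := ZMod (below v : ℕ)) (by
      rw [ZMod.ringChar_zmod_n]
      exact hp2)
    rw [ZMod.card] at h1
    unfold tf
    push_cast at h1 ⊢
    exact h1
  obtain ⟨α, h1, h2⟩ := exists_root hb (by positivity)
  have hnm : nm v = (below v : ℕ) ^ deg v := a1
  have hF : Frob (WG W K) v (α ^ deg v) := by
    refine ⟨?_, fun F _ _ f r hf hF => ?_⟩
    · rw [map_pow, ← mul_pow, h1, hnm]
      push_cast
      rfl
    · rw [card_sol, card_ext W (n := deg v * r) h h1 h2 F ?_ (by rw [hF, hnm, pow_mul]), map_pow,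
        ← pow_mul, ← pow_mul]
      have h3 : (((below v : ℕ) : ℕ) : 𝓞 K) ∈ v.asIdeal := (natCast_mem_iff v _).2 dvd_rfl
      rw [← hf, RingHom.mem_ker, map_natCast] at h3
      exact h3
  refine ⟨α ^ deg v, hF, fun s => ?_⟩
  have hmax : v.asIdeal.IsMaximal := v.isPrime.isMaximal v.ne_bot
  letI : Field (𝓞 K ⧸ v.asIdeal) := Ideal.Quotient.field v.asIdeal
  have hfin : Finite (𝓞 K ⧸ v.asIdeal) := Ideal.finiteQuotientOfFreeOfNeBot v.asIdeal v.ne_bot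
  have hcard : Nat.card (𝓞 K ⧸ v.asIdeal) = nm v := by
    rw [card_quot, hnm]
  have e1 : ((av W v : ℤ) : ℂ) = α ^ deg v + (starRingEnd ℂ) α ^ deg v := by
    have e0 := hF.2 (𝓞 K ⧸ v.asIdeal) (Ideal.Quotient.mk v.asIdeal) 1 Ideal.mk_ker
      (by rw [hcard, pow_one])
    rw [card_sol, hcard, pow_one, pow_one, map_pow] at e0
    have e9 : Ideal.absNorm v.asIdeal = nm v := rfl
    unfold av
    rw [e9, Int.cast_sub, Int.cast_natCast, Int.cast_natCast, e0]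
    ring
  have hnd : ((W.Δ : ℤ) : 𝓞 K) ∉ v.asIdeal := fun h' =>
    h (((W165.CE.intCast_mem_iff v _).1 h').mul_left _)
  unfold factor
  rw [inv_inv, if_neg hnd, e1]
  have e2 : ((Ideal.absNorm v.asIdeal : ℕ) : ℂ) ^ (1 - 2 * s) =
      (nm v : ℂ) * ((nm v : ℂ) ^ (-s)) ^ 2 := by
    have hne : (nm v : ℂ) ≠ 0 := by
      have := two_le_nm v
      exact_mod_cast (by omega : nm v ≠ 0)
    show (nm v : ℂ) ^ (1 - 2 * s) = _
    rw [← Complex.cpow_nat_mul, sub_eq_add_neg, Complex.cpow_add _ _ hne, Complex.cpow_one]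
    congr 2
    push_cast
    ring
  have e3 : α ^ deg v * (starRingEnd ℂ) (α ^ deg v) = (nm v : ℂ) := by
    rw [map_pow, ← mul_pow, h1, hnm]
    push_cast
    rfl
  rw [e2, map_pow]
  rw [map_pow] at e3
  show 1 - (α ^ deg v + (starRingEnd ℂ) α ^ deg v) * (nm v : ℂ) ^ (-s) + _ = _
  linear_combination (-((nm v : ℂ) ^ (-s)) ^ 2) * e3

/-- the function of the eigenvalues -/
noncomputable def bt (v : HeightOneSpectrum (𝓞 K)) : ℂ :=
  if h : ¬ ((below v : ℕ) : ℤ) ∣ 2 * W.Δ then (exists_frob W v h).choose else 0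

lemma bt_spec (v : HeightOneSpectrum (𝓞 K)) (h : ¬ ((below v : ℕ) : ℤ) ∣ 2 * W.Δ) :
    Frob (WG W K) v (bt W v) ∧ ∀ s : ℂ, (factor W s v)⁻¹ =
      (1 - bt W v * (nm v : ℂ) ^ (-s)) * (1 - (starRingEnd ℂ) (bt W v) * (nm v : ℂ) ^ (-s)) := by
  unfold bt
  rw [dif_pos h]
  exact (exists_frob W v h).choose_spec

lemma not_dvd {N : 𝓞 K} (hcN : ∃ n : ℕ, ((2 * W.Δ : ℤ) : 𝓞 K) ∣ N ^ n)
    {v : HeightOneSpectrum (𝓞 K)} (h : N ∉ v.asIdeal) : ¬ ((below v : ℕ) : ℤ) ∣ 2 * W.Δ :=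
  fun h' => h (by
    obtain ⟨n, t, ht⟩ := hcN
    refine v.isPrime.mem_of_pow_mem n ?_
    rw [ht]
    exact Ideal.mul_mem_right _ _ ((W165.CE.intCast_mem_iff v _).2 h'))

/-- the local data of the curve -/
theorem lc {N : 𝓞 K} (hcN : ∃ n : ℕ, ((2 * W.Δ : ℤ) : 𝓞 K) ∣ N ^ n)
    (hbad : ∀ v : HeightOneSpectrum (𝓞 K), ((below v : ℕ) : ℤ) ∣ 2 * W.Δ → ∀ s : ℂ, 1 / 2 < s.re →
      (factor W s v)⁻¹ ≠ 0) :
    Lc N (bt W) (fun s v => (factor W s v)⁻¹) where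
  nrm v h := (bt_spec W v (not_dvd W hcN h)).1.1
  good v h s := (bt_spec W v (not_dvd W hcN h)).2 s
  diff v _ := by
    have hne : ((Ideal.absNorm v.asIdeal : ℕ) : ℂ) ≠ 0 := by
      have := two_le_nm v
      exact_mod_cast (by omega : nm v ≠ 0)
    have hq : Differentiable ℂ fun s : ℂ => ((Ideal.absNorm v.asIdeal : ℕ) : ℂ) ^ (-s) := fun s =>
      DifferentiableAt.const_cpow (by fun_prop) (Or.inl hne)
    have hq2 : Differentiable ℂ fun s : ℂ => ((Ideal.absNorm v.asIdeal : ℕ) : ℂ) ^ (1 - 2 * s) :=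
      fun s => DifferentiableAt.const_cpow (by fun_prop) (Or.inl hne)
    unfold factor
    simp only [inv_inv]
    refine ((differentiable_const _).sub ((differentiable_const _).mul hq)).add ?_
    by_cases h : ((W.Δ : ℤ) : 𝓞 K) ∈ v.asIdeal
    · simp only [if_pos h]
      exact differentiable_const _
    · simp only [if_neg h]
      exact hq2
  ne v _ s hs := by
    by_cases h : ((below v : ℕ) : ℤ) ∣ 2 * W.Δ
    · exact hbad v h s hs
    · show (factor W s v)⁻¹ ≠ 0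
      rw [(bt_spec W v h).2 s]
      have h1 := (bt_spec W v h).1.1
      exact mul_ne_zero (one_sub_ne (beta_lt h1 hs)) (one_sub_ne (beta_lt (conj_mul' h1) hs))

lemma WG_disc : (WG W K).Δ = ((W.Δ : ℤ) : 𝓞 K) := by
  rw [WeierstrassCurve.map_Δ]
  rfl

/-- the surface is smooth -/
lemma disc_unit {N : 𝓞 K} (hcN : ∃ n : ℕ, ((2 * W.Δ : ℤ) : 𝓞 K) ∣ N ^ n) :
    ((WG W K).baseChange (Localization.Away N)).IsElliptic := by
  refine ⟨?_⟩
  obtain ⟨n, t, ht⟩ := hcN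
  have h1 : IsUnit (algebraMap (𝓞 K) (Localization.Away N) (N ^ n)) := by
    rw [map_pow]
    exact (IsLocalization.Away.algebraMap_isUnit N).pow n
  rw [ht, map_mul, Int.cast_mul, map_mul] at h1
  show IsUnit ((WG W K).map (algebraMap (𝓞 K) (Localization.Away N))).Δ
  rw [WeierstrassCurve.map_Δ, WG_disc]
  exact isUnit_of_mul_isUnit_right (isUnit_of_mul_isUnit_left h1)

/-- **the surfaces** -/
theorem main {N : 𝓞 K} (hW : W.Δ ≠ 0) (hN : N ≠ 0)
    (hcN : ∃ n : ℕ, ((2 * W.Δ : ℤ) : 𝓞 K) ∣ N ^ n)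
    (hbad : ∀ v : HeightOneSpectrum (𝓞 K), ((below v : ℕ) : ℤ) ∣ 2 * W.Δ → ∀ s : ℂ, 1 / 2 < s.re →
      (factor W s v)⁻¹ ≠ 0)
    (hfin : Finite ((WG W K).baseChange K).toAffine.Point) {G : ℂ → ℂ} (hG : Differentiable ℂ G)
    (hGs : ∀ s : ℂ, 3 / 2 < s.re → HasProd (factor (K := K) W s) (G s)) (hG1 : G 1 ≠ 0) :
    IsDomain (CRN (WG W K) N) ∧ (∃ F : ℂ → ℂ, IsZ (XN (WG W K) N) F) ∧
      Finite (CommRing.Pic (CRN (WG W K) N)) ∧
      BSF (WG W K) N (Units.rank K + {v : HeightOneSpectrum (𝓞 K) | N ∈ v.asIdeal}.ncard) 0 := by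
  have hΔ : (WG W K).Δ ≠ 0 := by
    rw [WG_disc]
    exact_mod_cast hW
  obtain ⟨hd, hp⟩ := PC.pica K (WG W K) N hN hΔ hfin
  obtain ⟨F, f1, f2, f3, f4, f5⟩ := zeta_mer hN
    (fun v hv => (bt_spec W v (not_dvd W hcN hv)).1) (lc W hcN hbad) hG (fun s hs => by
      simp only [inv_inv]
      exact hGs s hs)
  refine ⟨hd, ⟨F, f1, fun s hs => f2 s hs⟩, hp, rank_units _ hN, ?_, fun F' hF' => ?_⟩
  · rw [rank_fin, Nat.cast_zero]
  · have hu : ∀ s : ℂ, meromorphicOrderAt F' s = meromorphicOrderAt F s :=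
      order_unique hF'.1 f1 (σ := 2) fun s hs => by
        rw [(hF'.2 s hs).2, (f2 s hs).2]
        rfl
    rw [hu, hu, f3 hG1, f4, Nat.cast_zero, sub_zero]
    exact ⟨rfl, rfl, fun m hm => by rw [hu, f5 m hm]⟩

end Pool.Agent.D0H76.BS.Gn
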