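import Pool.Agent.D0H76.BS.Zka

/-!
# Project BSM: the meromorphic continuation of the zeta function of the surface and its orders, over all
number fields
-/

set_option autoImplicit false
set_option linter.unusedSectionVars false

open NumberField IsDedekindDomain CategoryTheory AlgebraicGeometry
open scoped Classical

namespace Pool.Agent.D0H76.BS

open Pool.Agent.H921R2.TatePole (nm two_le_nm nm_summable)
open Pool.Agent.D0H69.BS (Frob CRN XN order_of_ne fac_ne PS PS_analytic PS_ne PS_order fin_S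
  beta_small beta_lt conj_mul' one_sub_ne ep_main)

variable {K : Type} [Field K] [NumberField K] {W : WeierstrassCurve (𝓞 K)} {N : 𝓞 K}
  {β : HeightOneSpectrum (𝓞 K) → ℂ} {G : ℂ → ℂ} {dn : ℂ → HeightOneSpectrum (𝓞 K) → ℂ}

/-- the local data: `dn s v` is the inverse of the factor at `v` -/
structure Lc (N : 𝓞 K) (β : HeightOneSpectrum (𝓞 K) → ℂ) (dn : ℂ → HeightOneSpectrum (𝓞 K) → ℂ) :
    Prop where
  nrm : ∀ v, N ∉ v.asIdeal → β v * (starRingEnd ℂ) (β v) = nm v
  good : ∀ v, N ∉ v.asIdeal → ∀ s, dn s v =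
    (1 - β v * (nm v : ℂ) ^ (-s)) * (1 - (starRingEnd ℂ) (β v) * (nm v : ℂ) ^ (-s))
  diff : ∀ v, N ∈ v.asIdeal → Differentiable ℂ (fun s => dn s v)
  ne : ∀ v, N ∈ v.asIdeal → ∀ s : ℂ, 1 / 2 < s.re → dn s v ≠ 0

lemma Lc.ne' (hL : Lc N β dn) (v : HeightOneSpectrum (𝓞 K)) {s : ℂ} (hs : 1 / 2 < s.re) :
    dn s v ≠ 0 := by
  by_cases h : N ∈ v.asIdeal
  · exact hL.ne v h s hs
  · rw [hL.good v h]
    exact mul_ne_zero (one_sub_ne (beta_lt (hL.nrm v h) hs))
      (one_sub_ne (beta_lt (conj_mul' (hL.nrm v h)) hs))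

lemma Lc.bound (hL : Lc N β dn) {s : ℂ} (hs : 3 / 2 < s.re) (v : HeightOneSpectrum (𝓞 K))
    (h : N ∉ v.asIdeal) : ‖dn s v - 1‖ ≤ 3 * (nm v : ℝ) ^ (-(s.re - 1 / 2)) := by
  rw [hL.good v h]
  set x := β v * (nm v : ℂ) ^ (-s) with hx
  set y := (starRingEnd ℂ) (β v) * (nm v : ℂ) ^ (-s) with hy
  have h1 : ‖x‖ = (nm v : ℝ) ^ (-(s.re - 1 / 2)) := beta_small (hL.nrm v h)
  have h2 : ‖y‖ = (nm v : ℝ) ^ (-(s.re - 1 / 2)) := beta_small (conj_mul' (hL.nrm v h))
  have h3 : ‖x‖ < 1 := beta_lt (hL.nrm v h) (by linarith)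
  have e1 : (1 - x) * (1 - y) - 1 = -x - y + x * y := by ring
  rw [e1]
  calc ‖-x - y + x * y‖ ≤ ‖x‖ + ‖y‖ + ‖x‖ * ‖y‖ := by
        refine (norm_add_le _ _).trans ?_
        rw [norm_mul]
        gcongr
        refine (norm_sub_le _ _).trans ?_
        rw [norm_neg]
    _ ≤ ‖x‖ + ‖y‖ + 1 * ‖y‖ := by gcongr
    _ = 3 * (nm v : ℝ) ^ (-(s.re - 1 / 2)) := by rw [h1, h2]; ring

/-- the `L`-function is not zero to the right of `3 / 2` -/
theorem Lc.G_ne (hN : N ≠ 0) (hL : Lc N β dn) {s : ℂ} (hs : 3 / 2 < s.re) {g : ℂ}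
    (hg : HasProd (fun v => (dn s v)⁻¹) g) : g ≠ 0 := by
  have hsum : Summable fun v : HeightOneSpectrum (𝓞 K) => ‖dn s v - 1‖ := by
    refine Summable.of_norm_bounded_eventually
      ((nm_summable (K := K) (x := s.re - 1 / 2) (by linarith)).mul_left 3) ?_
    rw [Filter.eventually_cofinite]
    refine (fin_S hN).subset fun v hv => ?_
    by_contra h
    refine hv ?_
    rw [norm_norm]
    exact hL.bound hs v h
  have h1 : ∏' v : HeightOneSpectrum (𝓞 K), (1 + (dn s v - 1)) ≠ 0 :=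
    tprod_one_add_ne_zero_of_summable (fun v => by
      rw [add_sub_cancel]
      exact hL.ne' v (by linarith)) hsum
  have h2 : HasProd (fun v : HeightOneSpectrum (𝓞 K) => 1 + (dn s v - 1))
      (∏' v : HeightOneSpectrum (𝓞 K), (1 + (dn s v - 1))) :=
    (multipliable_one_add_of_summable hsum).hasProd
  simp only [add_sub_cancel] at h1 h2
  have h3 := h2.inv₀ h1
  rw [← h3.unique hg]
  exact inv_ne_zero h1

/-- the product of the inverses of the factors at the places of `S` -/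
noncomputable def DS (dn : ℂ → HeightOneSpectrum (𝓞 K) → ℂ) (S : Finset (HeightOneSpectrum (𝓞 K)))
    (s : ℂ) : ℂ := ∏ v ∈ S, dn s v

/-- **The zeta function of the surface.** -/
theorem zeta_mer (hN : N ≠ 0) (hF : ∀ v, N ∉ v.asIdeal → Frob W v (β v)) (hL : Lc N β dn)
    (hG : Differentiable ℂ G)
    (hGs : ∀ s : ℂ, 3 / 2 < s.re → HasProd (fun v => (dn s v)⁻¹) (G s)) :
    ∃ F : ℂ → ℂ, MeromorphicOn F Set.univ ∧ (∀ s : ℂ, 2 < s.re →
      Multipliable (fun x : {x : XN W N // IsClosed ({x} : Set (XN W N))} =>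
        (1 - ((Nat.card ((XN W N).residueField x.1) : ℂ) ^ (-s)))⁻¹) ∧
        F s = Pool.Agent.Q193.Zeta.zeta (XN W N) s) ∧
      (G 1 ≠ 0 → meromorphicOrderAt F 1 =
        (((Units.rank K + {v : HeightOneSpectrum (𝓞 K) | N ∈ v.asIdeal}.ncard : ℕ) : ℤ) :
          WithTop ℤ)) ∧
      meromorphicOrderAt F 2 = ((-1 : ℤ) : WithTop ℤ) ∧
      ∀ m : ℕ, 3 ≤ m → meromorphicOrderAt F (m : ℂ) = 0 := by
  obtain ⟨Z, z1, z2, z3, z4, z5⟩ := zka K
  have hfin := fin_S hN
  set S := hfin.toFinset with hS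
  have hmS : ∀ v, v ∈ S ↔ N ∈ v.asIdeal := fun v => by
    rw [hS, Set.Finite.mem_toFinset, Set.mem_ofPred_eq]
  have hcard : {v : HeightOneSpectrum (𝓞 K) | N ∈ v.asIdeal}.ncard = S.card :=
    Set.ncard_eq_toFinset_card _ hfin
  have hZs : MeromorphicOn (fun s => Z (s - 1)) Set.univ := by
    intro s _
    exact (meromorphicAt_comp_sub_const_iff_meromorphicAt).2 (z1 (s - 1) trivial)
  have hZo : ∀ s : ℂ, meromorphicOrderAt (fun s => Z (s - 1)) s = meromorphicOrderAt Z (s - 1) :=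
    fun s => meromorphicOrderAt_comp_sub_const_eq_meromorphicOrderAt
  have hDd : Differentiable ℂ (DS dn S) := by
    have : DS dn S = fun s : ℂ => ∏ v ∈ S, dn s v := rfl
    rw [this]
    exact Differentiable.fun_finsetProd fun v hv => hL.diff v ((hmS v).1 hv)
  have hDn : ∀ s : ℂ, 1 / 2 < s.re → DS dn S s ≠ 0 := fun s hs =>
    Finset.prod_ne_zero_iff.2 fun v _ => hL.ne' v hs
  set H : ℂ → ℂ := fun s => G s * DS dn S s with hH
  have hHa : ∀ s, AnalyticAt ℂ H s := fun s => (hG.mul hDd).analyticAt s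
  have hord : ∀ s : ℂ, meromorphicOrderAt (fun s => Z (s - 1) * PS S s * (H s)⁻¹) s =
      meromorphicOrderAt Z (s - 1) + meromorphicOrderAt (PS S) s + -meromorphicOrderAt H s := by
    intro s
    have m1 := hZs s trivial
    have m2 := (PS_analytic S s).meromorphicAt
    have m3 := (hHa s).meromorphicAt
    have h1 : (fun s => Z (s - 1) * PS S s * (H s)⁻¹) = ((fun s => Z (s - 1)) * PS S) * H⁻¹ := rfl
    rw [h1, meromorphicOrderAt_mul (m1.mul m2) m3.inv, meromorphicOrderAt_mul m1 m2,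
      meromorphicOrderAt_inv, hZo]
  have hHn : ∀ s : ℂ, 3 / 2 < s.re → H s ≠ 0 := fun s hs =>
    mul_ne_zero (hL.G_ne hN hs (hGs s hs)) (hDn s (by linarith))
  refine ⟨fun s => Z (s - 1) * PS S s * (H s)⁻¹, ?_, ?_, ?_, ?_, ?_⟩
  · intro s _
    exact ((hZs s trivial).mul (PS_analytic S s).meromorphicAt).mul (hHa s).meromorphicAt.inv
  · intro s hs
    obtain ⟨h1, h2⟩ := ep_main W N β hF hs
    refine ⟨h1, ?_⟩
    have hz := z2 (s - 1) (by rw [Complex.sub_re, Complex.one_re]; linarith)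
    have hl := hGs s (by linarith)
    have hu : HasProd (fun v : HeightOneSpectrum (𝓞 K) =>
        if v ∈ S then (1 - (nm v : ℂ) ^ (1 - s)) * (dn s v)⁻¹ else 1) (PS S s * (DS dn S s)⁻¹) := by
      have h3 : PS S s * (DS dn S s)⁻¹ =
          ∏ v ∈ S, (if v ∈ S then (1 - (nm v : ℂ) ^ (1 - s)) * (dn s v)⁻¹ else 1) := by
        unfold PS DS
        rw [← Finset.prod_inv_distrib, ← Finset.prod_mul_distrib]
        exact Finset.prod_congr rfl fun v hv => by rw [if_pos hv]
      rw [h3]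
      exact hasProd_prod_of_ne_finset_one fun v hv => by rw [if_neg hv]
    -- the product over the good places as a product over all the places
    set k : HeightOneSpectrum (𝓞 K) → ℂ := fun v => if N ∈ v.asIdeal then 1 else
      (1 - (nm v : ℂ) ^ (1 - s))⁻¹ * (1 - β v * (nm v : ℂ) ^ (-s)) *
        (1 - (starRingEnd ℂ) (β v) * (nm v : ℂ) ^ (-s)) with hk
    have hkp : HasProd k (Pool.Agent.Q193.Zeta.zeta (XN W N) s) := by
      have h3 : HasProd (k ∘ (Subtype.val : {v : HeightOneSpectrum (𝓞 K) // N ∉ v.asIdeal} → _))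
          (Pool.Agent.Q193.Zeta.zeta (XN W N) s) := by
        refine h2.congr_fun fun v => ?_
        rw [Function.comp_apply, hk]
        simp only
        rw [if_neg v.2]
      refine (hasProd_subtype_iff_of_mulSupport_subset
        (s := {v : HeightOneSpectrum (𝓞 K) | N ∉ v.asIdeal}) ?_).1 h3
      intro v hv hN'
      rw [Function.mem_mulSupport] at hv
      apply hv
      rw [hk]
      simp only
      have : N ∈ v.asIdeal := hN'
      rw [if_pos this]
    have e1 : Pool.Agent.Q193.Zeta.zeta (XN W N) s * G s =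
        Z (s - 1) * (PS S s * (DS dn S s)⁻¹) := by
      refine (hkp.mul hl).unique ((hz.mul hu).congr_fun fun v => ?_)
      have e2 : -(s - 1) = 1 - s := by ring
      by_cases hv : N ∈ v.asIdeal
      · rw [hk]
        simp only
        rw [if_pos hv, if_pos ((hmS v).2 hv), e2, ← mul_assoc,
          inv_mul_cancel₀ (fac_ne v (by linarith))]
      · have h5 := hL.good v hv s
        have h6 := hL.ne' v (s := s) (by linarith)
        rw [hk]
        simp only
        rw [if_neg hv, if_neg (fun h => hv ((hmS v).1 h)), e2, mul_one, mul_assoc (1 - _)⁻¹, ← h5,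
          mul_assoc, mul_inv_cancel₀ h6, mul_one]
    have h7 : G s ≠ 0 := hL.G_ne hN (by linarith) hl
    have h8 : DS dn S s ≠ 0 := hDn s (by linarith)
    show Z (s - 1) * PS S s * (G s * DS dn S s)⁻¹ = _
    rw [mul_inv]
    calc Z (s - 1) * PS S s * ((G s)⁻¹ * (DS dn S s)⁻¹) =
        (Z (s - 1) * (PS S s * (DS dn S s)⁻¹)) * (G s)⁻¹ := by ring
      _ = _ := by rw [← e1, mul_assoc, mul_inv_cancel₀ h7, mul_one]
  · intro hG1
    have hH1 : H 1 ≠ 0 := mul_ne_zero hG1 (hDn 1 (by norm_num))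
    rw [hord, PS_order, order_of_ne (hHa 1) hH1, sub_self, z4, hcard, neg_zero, add_zero,
      ← WithTop.coe_add]
    push_cast
    rfl
  · have e2 : (2 : ℂ) - 1 = 1 := by norm_num
    rw [hord, order_of_ne (hHa 2) (hHn 2 (by norm_num)),
      order_of_ne (PS_analytic S 2) (PS_ne S (by norm_num)), e2, z3]
    simp
  · intro m hm
    have hm' : (3 : ℝ) ≤ m := by exact_mod_cast hm
    rw [hord, order_of_ne (hHa m) (hHn m (by rw [Complex.natCast_re]; linarith)),
      order_of_ne (PS_analytic S m)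
      (PS_ne S (by rw [Complex.natCast_re]; linarith)), z5 (m - 1)
      (by rw [Complex.sub_re, Complex.natCast_re, Complex.one_re]; linarith)]
    simp

end Pool.Agent.D0H76.BS
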