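import Pool.Agent.D0H69.BS.Stm2

/-!
# Project BSM (helper76, MP_666bea_ag slot 3): the formula of Bloch and Soulé over all number fields,
statements of the modules

They generalize the modules ZK, RK, PIC of project BS (`Pool.Agent.D0H69.BS.Stm`) to all number fields.
-/

set_option autoImplicit false

open NumberField IsDedekindDomain
open scoped Classical

namespace Pool.Agent.D0H76.BS

open Pool.Agent.H921R2.TatePole (nm)
open Pool.Agent.D0H69.BS (CRN)

/-- ZKA: the zeta function of a number field and its orders.  Proof: `Pool.Agent.R362.HL.xi_unr` (file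
`R362/HkFe.lean`, Hecke) for `ψ` trivial, `e = 0`, `r = 1` (compare `R362/NearDed.lean`, `triv`,
`exists_xi`), the Euler product `Pool.Agent.D0H25.BS.hasProd_zeta`, `ζ_K` has a simple pole at `1`;
`Z s = X s / (s (s - 1) R^(s/2) ∏_φ Γ_ℝ(s + e_φ))`, `|X 0| = |X 1| ≠ 0`. -/
def S_ZKA : Prop := ∀ (K : Type) [Field K] [NumberField K],
  ∃ Z : ℂ → ℂ, MeromorphicOn Z Set.univ ∧ (∀ s : ℂ, 1 < s.re →
    HasProd (fun v : HeightOneSpectrum (𝓞 K) => (1 - (nm v : ℂ) ^ (-s))⁻¹) (Z s)) ∧
    meromorphicOrderAt Z 1 = ((-1 : ℤ) : WithTop ℤ) ∧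
    meromorphicOrderAt Z 0 = ((Units.rank K : ℤ) : WithTop ℤ) ∧
    ∀ s : ℂ, 1 < s.re → meromorphicOrderAt Z s = 0

/-- RKA: the rank of the group of the `N`-units of a number field (class number arbitrary).  Proof: adapt
`D0H17/BS/Rk.lean`; everything there is general except `vals_surj`; now the image of `vals` contains
`h ℤ^S`, `h` the class number (`v.asIdeal ^ h` is principal), so that `vals` has a range of rank `#S`. -/
def S_RKA : Prop := ∀ (K : Type) [Field K] [NumberField K] (N : 𝓞 K), N ≠ 0 →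
  Module.rank ℤ (Additive (Localization.Away N)ˣ) =
    ((Units.rank K + {v : HeightOneSpectrum (𝓞 K) | N ∈ v.asIdeal}.ncard : ℕ) : Cardinal)

/-- PICA: the Picard group of the coordinate ring over `𝓞 K [1 / N]` is finite if the group of points is
(class number arbitrary).

Proof: as `D0H84/BS` (`Desc.lean`, `Fld.lean`, `Pic.lean`; over a principal ideal domain `R`), with
`R = 𝓞 K`, `A = CRN W N`, `B` the coordinate ring over `K`, and with the prime ideals `P` of `𝓞 K` in
place of the prime elements: `P.map (algebraMap (𝓞 K) A)` is prime or the unit ideal (`A / P A` is the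
coordinate ring over the field `𝓞 K / P`; the unit ideal if `N ∈ P`).

(1) (compare `dvd_of_not_le`) Let `I` be an ideal of `A`, `c ≠ 0`, `j` in `A` with `c ∣ j i` for all `i ∈ I`, `d ≠ 0` an
ideal of `𝓞 K` such that `I` is not contained in `P A` for the primes `P ∣ d` with `P A ≠ A`, and `c ∣ x j` for all
`x ∈ d`.  Then `c ∣ j`.  Induction on `d = P d'`: let `y ∈ d'`, `t = y j`.  For `z ∈ P` : `z t = c x_z`.  If `P A ≠ A` choose
`i ∈ I`, `i ∉ P A`: `t i = c w`, so `x_z i = z w ∈ P A`, `x_z ∈ P A`.  Take `P'` with `P P' = (a)`, `a ≠ 0` :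
`a = ∑ z_k q_k`, `a t = c ∑ q_k x_{z_k} ∈ c P' P A = c a A`, so `c ∣ t = y j`.  Apply the induction hypothesis to `d'`.
(2) (compare `princ`) If `I J = (c)`, `c ≠ 0`, and `r ∈ I` for some `r ≠ 0` in `𝓞 K` (or `d A ≤ I` for an ideal `d ≠ 0`), then
`I = C A` for an ideal `C ≠ 0` of `𝓞 K`: if `I ≤ P A` for a prime `P ∣ d` with `P A ≠ A`, divide by `P` (with `P'`) and use
the induction; otherwise `J ≤ (c)` by (1), so `1 ∈ I`.
(3) (compare `princ_of_map`, `finite_class`) the kernel of `Cl(A) → Cl(B)` consists of the classes of the `C A`,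
which depend only on the class of `C`; `Cl(𝓞 K)` is finite, and `Cl(B)` is finite by `finite_of_points`. -/
def S_PICA : Prop := ∀ (K : Type) [Field K] [NumberField K] (W : WeierstrassCurve (𝓞 K)) (N : 𝓞 K),
  N ≠ 0 → W.Δ ≠ 0 → Finite (W.baseChange K).toAffine.Point →
  ∃ _ : IsDomain (CRN W N), Finite (CommRing.Pic (CRN W N))

end Pool.Agent.D0H76.BS
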