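import Pool.Agent.D0H76.BS.Stm
import Pool.Agent.R362.HkFe
import Pool.Agent.D0H25.BS.Zk
import Pool.Agent.D0H69.BS.Mer

/-!
# Project BSM, module ZKA: the zeta function of a number field and its orders at `0`, `1` and to the right
of `1`
-/

set_option autoImplicit false

open NumberField IsDedekindDomain Complex Filter Topology
open Pool.Agent.R362.HL Pool.Agent.Y773 Pool.Agent.Y773.G

namespace Pool.Agent.D0H76.BS

open Pool.Agent.H921R2.TatePole (nm)
open Pool.Agent.D0H69.BS (order_of_ne)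

section gam

/-- the inverse of the gamma factor -/
noncomputable def gi (a : ℕ) (s : ℂ) : ℂ := (Gammaℝ (s + a))⁻¹

lemma gi_diff (a : ℕ) : Differentiable ℂ (gi a) := by
  have h : gi a = (fun s : ℂ => (Gammaℝ s)⁻¹) ∘ fun s => s + a := rfl
  rw [h]
  exact differentiable_Gammaℝ_inv.comp (differentiable_id.add_const _)

lemma gi_ne (a : ℕ) {s : ℂ} (h : 0 < (s + a).re) : gi a s ≠ 0 :=
  inv_ne_zero (Gammaℝ_ne_zero_of_re_pos h)

lemma gi_zero : meromorphicOrderAt (gi 0) 0 = 1 := by
  have hf : gi 0 = fun s : ℂ => (Gammaℝ s)⁻¹ := by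
    funext s
    unfold gi
    rw [Nat.cast_zero, add_zero]
  rw [hf]
  have h0 : (Gammaℝ 0)⁻¹ = 0 := by
    rw [inv_eq_zero, Gammaℝ_eq_zero_iff]
    exact ⟨0, by simp⟩
  have hd : HasDerivAt (fun s : ℂ => (Gammaℝ s)⁻¹) (2 : ℂ)⁻¹ 0 := by
    rw [hasDerivAt_iff_tendsto_slope]
    refine (Gammaℝ_residue_zero.inv₀ two_ne_zero).congr fun s => ?_
    rw [slope_def_field, h0, sub_zero, sub_zero, mul_inv, div_eq_mul_inv, mul_comm]
  have ha : AnalyticAt ℂ (fun s : ℂ => (Gammaℝ s)⁻¹) 0 := differentiable_Gammaℝ_inv.analyticAt 0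
  rw [ha.meromorphicOrderAt_eq]
  have h4 := ha.analyticOrderAt_sub_eq_one_of_deriv_ne_zero (by
    rw [hd.deriv]
    exact inv_ne_zero two_ne_zero)
  have h3 : analyticOrderAt (fun s : ℂ => (Gammaℝ s)⁻¹) 0 = 1 := by
    simpa [h0] using h4
  rw [h3]
  rfl

end gam

section emb
variable {K : Type} [Field K] [NumberField K]

omit [NumberField K] in
lemma ex_zero (φ : K →+* ℂ) : ex (fun _ : InfinitePlace K => 0) φ = 0 ↔
    (InfinitePlace.mk φ).embedding = φ := by
  classical
  unfold ex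
  by_cases h : (InfinitePlace.mk φ).IsReal
  · rw [if_pos h]
    refine ⟨fun _ => ?_, fun _ => rfl⟩
    rw [InfinitePlace.isReal_mk_iff] at h
    exact InfinitePlace.embedding_mk_eq_of_isReal h
  · rw [if_neg h]
    by_cases h2 : (InfinitePlace.mk φ).embedding = φ
    · rw [if_pos h2]
      exact ⟨fun _ => h2, fun _ => rfl⟩
    · rw [if_neg h2]
      exact ⟨fun h => absurd h one_ne_zero, fun h => absurd h h2⟩

lemma ex_le_one (φ : K →+* ℂ) : ex (fun _ : InfinitePlace K => 0) φ ≤ 1 :=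
  ex_le (fun _ => Nat.zero_le _) φ

lemma card_ex : ∑ φ : K →+* ℂ, (if ex (fun _ : InfinitePlace K => 0) φ = 0 then (1 : ℤ) else 0) =
    Fintype.card (InfinitePlace K) := by
  classical
  rw [Finset.sum_ite, Finset.sum_const_zero, add_zero, Finset.sum_const, nsmul_eq_mul, mul_one]
  congr 1
  rw [← Finset.card_univ]
  refine (Finset.card_bij (fun (w : InfinitePlace K) _ => w.embedding) ?_ ?_ ?_).symm
  · intro w _
    rw [Finset.mem_filter, ex_zero, InfinitePlace.mk_embedding]
    exact ⟨Finset.mem_univ _, rfl⟩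
  · intro w _ w' _ h
    rw [← InfinitePlace.mk_embedding w, ← InfinitePlace.mk_embedding w', h]
  · intro φ hφ
    rw [Finset.mem_filter, ex_zero] at hφ
    exact ⟨InfinitePlace.mk φ, Finset.mem_univ _, hφ.2⟩

end emb

section triv
variable {K : Type} [Field K] [NumberField K]

open Classical in
/-- the trivial character of the ideals -/
noncomputable def trv (K : Type) [Field K] [NumberField K] : Ideal (𝓞 K) →*₀ ℂ where
  toFun 𝔞 := if 𝔞 = ⊥ then 0 else 1
  map_zero' := by simp
  map_one' := by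
    rw [Ideal.one_eq_top, if_neg]
    exact top_ne_bot
  map_mul' 𝔞 𝔟 := by
    by_cases h1 : 𝔞 = ⊥
    · simp [h1]
    · by_cases h2 : 𝔟 = ⊥
      · simp [h2]
      · have h3 : 𝔞 * 𝔟 ≠ ⊥ := by
          rw [Ne, Ideal.mul_eq_bot]
          tauto
        simp [h1, h2, h3]

lemma trv_apply {𝔞 : Ideal (𝓞 K)} (h : 𝔞 ≠ ⊥) : trv K 𝔞 = 1 := by
  classical
  show (if 𝔞 = ⊥ then (0 : ℂ) else 1) = 1
  rw [if_neg h]

lemma trv_bot : trv K (⊥ : Ideal (𝓞 K)) = 0 := by
  rw [← Ideal.zero_eq_bot, map_zero]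

lemma trv_norm (𝔞 : Ideal (𝓞 K)) : ‖trv K 𝔞‖ ≤ 1 := by
  by_cases h : 𝔞 = ⊥
  · rw [h, trv_bot, norm_zero]; exact zero_le_one
  · rw [trv_apply h, norm_one]

lemma isUnr : IsUnr (fun _ : InfinitePlace K => 0) (trv K) where
  sig_le := fun _ => Nat.zero_le _
  cpx := fun _ _ => rfl
  sig := fun x hx => by
    have h1 : Ideal.span {x} ≠ ⊥ := by
      rw [Ne, Ideal.span_singleton_eq_bot]
      exact hx
    rw [trv_apply h1]
    unfold Pool.Agent.Y773.G.sg
    simp

lemma LI_eq {s : ℂ} (hs : 1 < s.re) : LI (trv K) s = dedekindZeta K s := by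
  have h := (Pool.Agent.D0H25.BS.hasSum_fC (K := K) hs).tsum_eq
  rw [← h]
  unfold LI
  refine tsum_congr fun 𝔞 => ?_
  unfold Pool.Agent.D0H25.BS.fC
  by_cases h0 : 𝔞 = ⊥
  · rw [if_pos h0, h0, trv_bot, zero_mul]
  · rw [if_neg h0, trv_apply h0, one_mul]

end triv

theorem zka : S_ZKA := by
  intro K _ _
  obtain ⟨X, hX⟩ := xi_unr (K := K) isUnr (r := 1) (Or.inl rfl)
  set R : ℝ := ((Ideal.absNorm (differentIdeal ℤ (𝓞 K)) : ℕ) : ℝ) with hRdef
  have hR : (0 : ℝ) < R := by linarith [hX.one_le]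
  have hRc : (R : ℂ) ≠ 0 := by exact_mod_cast hR.ne'
  set e : (K →+* ℂ) → ℕ := ex (fun _ : InfinitePlace K => 0) with he
  -- the factors
  set P : ℂ → ℂ := fun s => (s * (s - 1))⁻¹ with hP
  set Q : ℂ → ℂ := fun s => ((R : ℂ) ^ (s / 2))⁻¹ with hQ
  set G : ℂ → ℂ := fun s => ∏ φ : K →+* ℂ, gi (e φ) s with hG
  have hQd : Differentiable ℂ Q := by
    have h2 : Q = fun s : ℂ => (R : ℂ) ^ (-(s / 2)) := by
      funext s
      rw [hQ]
      simp only
      rw [Complex.cpow_neg]
    rw [h2]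
    exact fun s => DifferentiableAt.const_cpow (by fun_prop) (Or.inl hRc)
  have hQ0 : ∀ s, Q s ≠ 0 := fun s => inv_ne_zero (by
    rw [Ne, Complex.cpow_eq_zero_iff]
    exact fun h => hRc h.1)
  have hGd : Differentiable ℂ G := Differentiable.fun_finsetProd fun φ _ => gi_diff (e φ)
  have hG0 : ∀ s : ℂ, 0 < s.re → G s ≠ 0 := fun s hs => Finset.prod_ne_zero_iff.2 fun φ _ => by
    refine gi_ne _ ?_
    rw [add_re, natCast_re]
    positivity
  have hPm : ∀ s, MeromorphicAt P s := fun s =>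
    (((differentiable_id.mul (differentiable_id.sub_const 1)).analyticAt s).meromorphicAt).inv
  have hXa : ∀ s, AnalyticAt ℂ X s := fun s => hX.diff.analyticAt s
  have hQa : ∀ s, AnalyticAt ℂ Q s := fun s => hQd.analyticAt s
  have hGa : ∀ s, AnalyticAt ℂ G s := fun s => hGd.analyticAt s
  have hord : ∀ s, meromorphicOrderAt (fun s => X s * P s * Q s * G s) s =
      meromorphicOrderAt X s + meromorphicOrderAt P s + meromorphicOrderAt Q s +
        meromorphicOrderAt G s := by
    intro s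
    have h1 : (fun s => X s * P s * Q s * G s) = ((X * P) * Q) * G := rfl
    rw [h1, meromorphicOrderAt_mul (((hXa s).meromorphicAt.mul (hPm s)).mul (hQa s).meromorphicAt)
      (hGa s).meromorphicAt, meromorphicOrderAt_mul ((hXa s).meromorphicAt.mul (hPm s))
      (hQa s).meromorphicAt, meromorphicOrderAt_mul (hXa s).meromorphicAt (hPm s)]
  -- the values to the right
  have hval : ∀ s : ℂ, 1 < s.re → X s * P s * Q s * G s = dedekindZeta K s := by
    intro s hs
    have hs0 : s ≠ 0 := fun h0 => by rw [h0] at hs; norm_num at hs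
    have hs1 : s - 1 ≠ 0 := fun h0 => by
      rw [sub_eq_zero.1 h0] at hs
      norm_num at hs
    have h1 : (∏ φ : K →+* ℂ, Gammaℝ (s + e φ)) * G s = 1 := by
      rw [hG]
      simp only
      rw [← Finset.prod_mul_distrib]
      refine Finset.prod_eq_one fun φ _ => ?_
      unfold gi
      refine mul_inv_cancel₀ (Gammaℝ_ne_zero_of_re_pos ?_)
      rw [add_re, natCast_re]
      positivity
    have h2 : (R : ℂ) ^ (s / 2) * Q s = 1 := mul_inv_cancel₀ (by
      rw [Ne, Complex.cpow_eq_zero_iff]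
      exact fun h => hRc h.1)
    have h3 : s * (s - 1) * P s = 1 := mul_inv_cancel₀ (mul_ne_zero hs0 hs1)
    rw [hX.eq s hs, pow_one, LI_eq hs]
    calc _ = (s * (s - 1) * P s) * ((R : ℂ) ^ (s / 2) * Q s) *
          ((∏ φ : K →+* ℂ, Gammaℝ (s + e φ)) * G s) * dedekindZeta K s := by ring
      _ = _ := by rw [h1, h2, h3]; ring
  -- the value at 1
  have hX1 : X 1 ≠ 0 := by
    have h1 : Tendsto (fun s : ℝ => X s * Q s * G s) (𝓝[>] 1) (𝓝 (X 1 * Q 1 * G 1)) := by
      have h2 : ContinuousAt (fun s : ℂ => X s * Q s * G s) ((1 : ℝ) : ℂ) :=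
        ((hX.diff.continuous.mul hQd.continuous).mul hGd.continuous).continuousAt
      have h3 : ContinuousAt (fun s : ℝ => X s * Q s * G s) 1 :=
        ContinuousAt.comp (f := fun s : ℝ => (s : ℂ)) (g := fun s : ℂ => X s * Q s * G s) h2
          Complex.continuous_ofReal.continuousAt
      have h4 := h3.tendsto
      simp only [Complex.ofReal_one] at h4
      exact h4.mono_left nhdsWithin_le_nhds
    have h5 : Tendsto (fun s : ℝ => (s : ℂ) * (((s : ℂ) - 1) * dedekindZeta K s)) (𝓝[>] 1)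
        (𝓝 (1 * (dedekindZeta_residue K : ℂ))) := by
      refine Tendsto.mul ?_ (tendsto_sub_one_mul_dedekindZeta_nhdsGT K)
      have h4 : ContinuousAt (fun s : ℝ => (s : ℂ)) 1 := Complex.continuous_ofReal.continuousAt
      have := h4.tendsto
      rw [Complex.ofReal_one] at this
      exact this.mono_left nhdsWithin_le_nhds
    have h6 : (fun s : ℝ => X s * Q s * G s) =ᶠ[𝓝[>] 1]
        fun s : ℝ => (s : ℂ) * (((s : ℂ) - 1) * dedekindZeta K s) := by
      filter_upwards [self_mem_nhdsWithin] with s hs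
      have hs' : (1 : ℝ) < ((s : ℝ) : ℂ).re := by
        rw [Complex.ofReal_re]
        exact hs
      have hs0 : (s : ℂ) ≠ 0 := fun h0 => by rw [h0] at hs'; norm_num at hs'
      have hs1 : (s : ℂ) - 1 ≠ 0 := fun h0 => by
        rw [sub_eq_zero.1 h0] at hs'
        norm_num at hs'
      rw [← hval s hs']
      have h3 : (s : ℂ) * ((s : ℂ) - 1) * P s = 1 := mul_inv_cancel₀ (mul_ne_zero hs0 hs1)
      linear_combination (-(X s * Q s * G s)) * h3
    have h7 := tendsto_nhds_unique (h1.congr' h6) h5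
    intro h0
    rw [h0, zero_mul, zero_mul, one_mul] at h7
    have h8 := dedekindZeta_residue_pos K
    exact h8.ne (by exact_mod_cast h7)
  have hX0 : X 0 ≠ 0 := by
    obtain ⟨w, hw, hfe⟩ := hX.fe
    rw [hfe 0, map_zero, sub_zero]
    refine mul_ne_zero (fun h => ?_) ?_
    · rw [h, norm_zero] at hw
      exact zero_ne_one hw
    · rw [Ne, map_eq_zero]
      exact hX1
  refine ⟨fun s => X s * P s * Q s * G s, ?_, ?_, ?_, ?_, ?_⟩
  · intro s _
    exact (((hXa s).meromorphicAt.mul (hPm s)).mul (hQa s).meromorphicAt).mul (hGa s).meromorphicAt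
  · intro s hs
    show HasProd _ (X s * P s * Q s * G s)
    rw [hval s hs]
    exact Pool.Agent.D0H25.BS.hasProd_zeta hs
  · have h1 : meromorphicOrderAt P 1 = ((-1 : ℤ) : WithTop ℤ) := by
      have h2 : P = ((fun s : ℂ => s) * fun s : ℂ => s - 1)⁻¹ := rfl
      have a1 : AnalyticAt ℂ (fun s : ℂ => s) 1 := analyticAt_id
      have a2 : AnalyticAt ℂ (fun s : ℂ => s - 1) 1 := analyticAt_id.sub analyticAt_const
      rw [h2, meromorphicOrderAt_inv, meromorphicOrderAt_mul a1.meromorphicAt a2.meromorphicAt,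
        order_of_ne a1 one_ne_zero, zero_add, meromorphicOrderAt_id_sub_const]
      rfl
    rw [hord, order_of_ne (hXa 1) hX1, order_of_ne (hQa 1) (hQ0 1),
      order_of_ne (hGa 1) (hG0 1 (by norm_num)), h1]
    simp
  · have h1 : meromorphicOrderAt P 0 = ((-1 : ℤ) : WithTop ℤ) := by
      have h2 : P = ((fun s : ℂ => s - 0) * fun s : ℂ => s - 1)⁻¹ := by
        funext s
        rw [hP]
        simp
      have a1 : AnalyticAt ℂ (fun s : ℂ => s - 0) 0 := analyticAt_id.sub analyticAt_const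
      have a2 : AnalyticAt ℂ (fun s : ℂ => s - 1) 0 := analyticAt_id.sub analyticAt_const
      rw [h2, meromorphicOrderAt_inv, meromorphicOrderAt_mul a1.meromorphicAt a2.meromorphicAt,
        order_of_ne a2 (by norm_num), add_zero, meromorphicOrderAt_id_sub_const]
      rfl
    have h2 : meromorphicOrderAt G 0 = ((Fintype.card (InfinitePlace K) : ℤ) : WithTop ℤ) := by
      have h3 : G = fun s => ∏ φ : K →+* ℂ, gi (e φ) s := rfl
      rw [h3, meromorphicOrderAt_fun_prod fun φ _ => ((gi_diff (e φ)).analyticAt 0).meromorphicAt,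
        ← card_ex]
      have h4 : ∀ φ : K →+* ℂ, meromorphicOrderAt (gi (e φ)) 0 =
          ((if e φ = 0 then (1 : ℤ) else 0 : ℤ) : WithTop ℤ) := by
        intro φ
        have h5 : e φ = 0 ∨ e φ = 1 := by
          have := ex_le_one φ
          rw [← he] at this
          omega
        rcases h5 with h5 | h5
        · rw [h5, gi_zero, if_pos rfl]
          rfl
        · rw [h5, if_neg one_ne_zero, order_of_ne ((gi_diff 1).analyticAt 0)
            (gi_ne 1 (by norm_num))]
          rfl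
      rw [Finset.sum_congr rfl fun φ _ => h4 φ, ← WithTop.coe_sum]
    rw [hord, order_of_ne (hXa 0) hX0, order_of_ne (hQa 0) (hQ0 0), h1, h2, zero_add, add_zero]
    have h3 : (Units.rank K : ℤ) = -1 + Fintype.card (InfinitePlace K) := by
      unfold Units.rank
      have : 0 < Fintype.card (InfinitePlace K) := Fintype.card_pos
      omega
    rw [h3]
    rfl
  · intro s hs
    have hXs : X s ≠ 0 := by
      obtain ⟨A', -, hd⟩ := Pool.Agent.Y772.DK.t_dirK K
      have h6 := (hd (trv K) trv_norm).2.2.1 s hs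
      rw [hX.eq s hs, pow_one]
      have hs0 : s ≠ 0 := fun h0 => by rw [h0] at hs; norm_num at hs
      have hs1 : s - 1 ≠ 0 := fun h0 => by
        rw [sub_eq_zero.1 h0] at hs
        norm_num at hs
      refine mul_ne_zero (mul_ne_zero (mul_ne_zero hs0 hs1) (mul_ne_zero ?_
        (gam_ne_zero _ (by linarith)))) h6
      rw [Ne, Complex.cpow_eq_zero_iff]
      exact fun h => hRc h.1
    have hs0 : s ≠ 0 := fun h0 => by rw [h0] at hs; norm_num at hs
    have hs1 : s - 1 ≠ 0 := fun h0 => by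
      rw [sub_eq_zero.1 h0] at hs
      norm_num at hs
    have h1 : meromorphicOrderAt P s = 0 := by
      have h2 : P = (fun s : ℂ => s * (s - 1))⁻¹ := rfl
      have a1 : AnalyticAt ℂ (fun s : ℂ => s * (s - 1)) s :=
        analyticAt_id.mul (analyticAt_id.sub analyticAt_const)
      rw [h2, meromorphicOrderAt_inv, order_of_ne a1 (mul_ne_zero hs0 hs1), neg_zero]
    rw [hord, order_of_ne (hXa s) hXs, order_of_ne (hQa s) (hQ0 s),
      order_of_ne (hGa s) (hG0 s (by linarith)), h1]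
    simp

end Pool.Agent.D0H76.BS
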